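import Pool.Agent.Helper47.FK.ChkR1
import Pool.Agent.Helper47.FK.ChkR2
import Pool.Agent.Helper47.FK.ChkR3
import Pool.Agent.Helper47.FK.ChkR4

/-!
The finite check: for `D ≤ 205` nothing lies above the smallest deviant element.
-/

namespace Pool.Agent.Helper27.FK

theorem caseB {D : ℕ} {I : Finset ℕ} {a j b : ℕ} (h : Sys D I) (h3 : 3 ≤ I.card) (h1 : 1 ∈ I)
    (hd : Dev I a j) (hD : D ≤ 205) (hb : b ∈ I) (hab : a < b) : False := by
  have h6 := h.six_le h3
  rcases Nat.lt_or_ge D 90 with h2 | h2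
  · exact no_above_of_allD chkR1 h6 (by omega) hD h h3 h1 hd hb hab
  rcases Nat.lt_or_ge D 140 with h4 | h4
  · exact no_above_of_allD chkR2 h2 (by omega) hD h h3 h1 hd hb hab
  rcases Nat.lt_or_ge D 180 with h5 | h5
  · exact no_above_of_allD chkR3 h4 (by omega) hD h h3 h1 hd hb hab
  · exact no_above_of_allD chkR4 h5 (by omega) hD h h3 h1 hd hb hab

end Pool.Agent.Helper27.FK
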