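import Mathlib
import Pool.Agent.Helper27.FK.Basic
import Pool.Agent.Helper47.Fr.A

/-!
The least numerator is `1`.
-/

namespace Pool.Agent.Helper27.FK

open Finset

theorem Sys.toFr {D : ℕ} {I : Finset ℕ} (h : Sys D I) : Pool.Agent.Helper47.Fr.Sys D I where
  pos := h.pos
  cop := h.cop
  sum_le := h.sum_le
  C := h.C

theorem p_eq_one {D : ℕ} {I : Finset ℕ} (h : Sys D I) (h3 : 3 ≤ I.card) : 1 ∈ I := by
  have hne : I.Nonempty := by
    rw [← Finset.card_pos]; omega
  have hp := I.min'_mem hne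
  set p := I.min' hne with hpdef
  have hmin : ∀ b ∈ I, p ≤ b := fun b hb => I.min'_le b hb
  rcases Nat.lt_or_ge p 2 with h1 | h1
  · have h0 := h.pos p hp
    have h2 : p = 1 := by omega
    rw [← h2]
    exact hp
  · exact (Pool.Agent.Helper47.Fr.no_ge_two h.toFr h3 hp hmin h1).elim

end Pool.Agent.Helper27.FK
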