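import Mathlib
import Pool.Agent.Helper27.FK.Basic

/-!
The exact top scale: systems consisting of powers of two and at most one further element.
-/

namespace Pool.Agent.Helper27.FK

open Finset Real

/-- The powers of two up to `2^j`. -/
def Pw (j : ℕ) : Finset ℕ := (Finset.range (j + 1)).image (fun i => 2 ^ i)

lemma mem_Pw {j b : ℕ} : b ∈ Pw j ↔ ∃ i ≤ j, b = 2 ^ i := by
  unfold Pw
  simp only [mem_image, mem_range]
  constructor
  · rintro ⟨i, hi, rfl⟩
    exact ⟨i, by omega, rfl⟩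
  · rintro ⟨i, hi, rfl⟩
    exact ⟨i, by omega, rfl⟩

lemma sum_Pw {M : Type*} [AddCommMonoid M] (F : ℕ → M) (j : ℕ) :
    ∑ b ∈ Pw j, F b = ∑ i ∈ range (j + 1), F (2 ^ i) := by
  unfold Pw
  rw [Finset.sum_image]
  intro x _ y _ hxy
  exact Nat.pow_right_injective le_rfl hxy

lemma sum_two_pow (j : ℕ) : ∑ i ∈ range j, 2 ^ i = 2 ^ j - 1 := by
  induction j with
  | zero => simp
  | succ n ih =>
    rw [Finset.sum_range_succ, ih, pow_succ]
    have : 0 < 2 ^ n := by positivity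
    omega

lemma tele {v : ℝ} (hv0 : 0 < v) (hv : v < π) (j : ℕ) :
    ∑ i ∈ range j, 1 / Real.sin (v / 2 ^ (i + 1)) =
      Real.cos (v / 2 ^ (j + 1)) / Real.sin (v / 2 ^ (j + 1)) -
        Real.cos (v / 2) / Real.sin (v / 2) := by
  induction j with
  | zero => simp
  | succ n ih =>
    rw [Finset.sum_range_succ, ih]
    set w := v / 2 ^ (n + 1 + 1) with hw
    have h1 : v / 2 ^ (n + 1) = 2 * w := by
      rw [hw, pow_succ 2 (n + 1)]
      field_simp
    have hw0 : 0 < w := by positivity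
    have hw1 : 2 * w < π := by
      rw [← h1]
      refine lt_of_le_of_lt ?_ hv
      apply div_le_self hv0.le
      exact one_le_pow₀ (by norm_num)
    rw [h1, Real.sin_two_mul, Real.cos_two_mul]
    have hs : 0 < Real.sin w := Real.sin_pos_of_pos_of_lt_pi hw0 (by linarith)
    have hc : 0 < Real.cos w := Real.cos_pos_of_mem_Ioo ⟨by linarith, by linarith⟩
    field_simp
    ring

/-- general lower bound -/
lemma xd_ge {D a b V : ℕ} (hb : b.Coprime D) (haD : a < D) (hnd : ¬ b ∣ a)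
    (hVb : V ∣ b) (hVa : V ∣ a) : V * D ≤ b * xd D a b + a := by
  have hVD : V.Coprime D := Nat.Coprime.coprime_dvd_left hVb hb
  obtain ⟨t, ht | ht⟩ := xd_spec hb haD
  · have h1 : t ≠ 0 := by
      rintro rfl
      exact hnd ⟨xd D a b, by linarith⟩
    have h2 : V ∣ t * D := by
      have h3 : V ∣ t * D + a := by rw [← ht]; exact hVb.mul_right _
      exact (Nat.dvd_add_left hVa).1 h3
    have h3 : V ∣ t := hVD.dvd_of_dvd_mul_right h2
    have h4 : V ≤ t := Nat.le_of_dvd (Nat.pos_of_ne_zero h1) h3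
    have h5 : V * D ≤ t * D := Nat.mul_le_mul_right _ h4
    omega
  · have h1 : t ≠ 0 := by
      rintro rfl
      apply hnd
      have : a = 0 := by omega
      rw [this]
      exact dvd_zero _
    have h2 : V ∣ t * D := by
      rw [← ht]
      exact Nat.dvd_add (hVb.mul_right _) hVa
    have h3 : V ∣ t := hVD.dvd_of_dvd_mul_right h2
    have h4 : V ≤ t := Nat.le_of_dvd (Nat.pos_of_ne_zero h1) h3
    have h5 : V * D ≤ t * D := Nat.mul_le_mul_right _ h4
    omega

/-- lower bound when `b` divides neither `a` nor `D - a` -/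
lemma xd_ge_add {D a b : ℕ} (hb : b.Coprime D) (haD : 2 * a ≤ D) (h0 : 0 < a) (hnd : ¬ b ∣ a)
    (hnd' : ¬ b ∣ D - a) : D + a ≤ b * xd D a b := by
  obtain ⟨t, ht | ht⟩ := xd_spec hb (show a < D by omega)
  · have h1 : t ≠ 0 := by
      rintro rfl
      exact hnd ⟨xd D a b, by linarith⟩
    have h5 : 1 * D ≤ t * D := Nat.mul_le_mul_right _ (by omega)
    omega
  · have h1 : t ≠ 0 := by
      rintro rfl
      omega
    have h2 : t ≠ 1 := by
      rintro rfl
      exact hnd' ⟨xd D a b, by omega⟩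
    have h5 : 2 * D ≤ t * D := Nat.mul_le_mul_right _ (by omega)
    omega

lemma xd_div {D a b : ℕ} (hD : 0 < D) (hb : b.Coprime D) (hdvd : b ∣ a) (h2 : 2 * (a / b) ≤ D) :
    xd D a b = a / b := by
  apply xd_eq_of hD hb h2
  left
  have : b * (a / b) = a := Nat.mul_div_cancel' hdvd
  have h3 : (b : ℤ) * ((a / b : ℕ) : ℤ) = a := by exact_mod_cast this
  rw [h3, sub_self]
  exact dvd_zero _

/-- the rational bound at a smaller real argument -/
lemma f_le_real {D x : ℕ} {z : ℝ} (hz : 0 < z) (hzx : z ≤ x) (hxD : 2 * x ≤ D) :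
    f D x ≤ 1 / z + 2.2832 * z / (D : ℝ) ^ 2 := by
  have hx : (0 : ℝ) < x := lt_of_lt_of_le hz hzx
  have hx' : 0 < x := by exact_mod_cast hx
  have hD' : (0 : ℝ) < D := by exact_mod_cast (by omega : 0 < D)
  refine (f_le hx' hxD).trans ?_
  have h2 : (2 : ℝ) * x ≤ D := by exact_mod_cast hxD
  have key : 0 ≤ ((x : ℝ) - z) * (D ^ 2 - 2.2832 * (x * z)) := by
    apply mul_nonneg (by linarith)
    nlinarith
  have e : (1 / z + 2.2832 * z / (D : ℝ) ^ 2) - (1 / (x : ℝ) + 2.2832 * x / (D : ℝ) ^ 2) =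
      ((x : ℝ) - z) * (D ^ 2 - 2.2832 * (x * z)) / (x * z * D ^ 2) := by
    field_simp
    ring
  have h3 : 0 ≤ ((x : ℝ) - z) * (D ^ 2 - 2.2832 * (x * z)) / (x * z * D ^ 2) := by positivity
  linarith

/-- The inequality `C(1)` for the powers of two. -/
lemma tele_bound {D j : ℕ} (hD : 3 ≤ D) (hcop : Nat.Coprime 2 D) :
    ∑ i ∈ range j, f D (xd D 1 (2 ^ (i + 1))) <
      2 ^ (j + 1) / ((D : ℝ) - 1) - (1 - Real.cos (π / D)) := by
  have hD' : (3 : ℝ) ≤ D := by exact_mod_cast hD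
  have hpi := Real.pi_pos
  set y : ℝ := π / D with hy
  have hy0 : 0 < y := by positivity
  have hyD : y * D = π := by rw [hy]; field_simp
  have hy3 : 3 * y ≤ π := by nlinarith
  set v : ℝ := π - y with hv
  have hv0 : 0 < v := by linarith
  have hvpi : v < π := by linarith
  have hsy : 0 < Real.sin y := Real.sin_pos_of_pos_of_lt_pi hy0 (by linarith)
  have hle : ∀ i ∈ range j, f D (xd D 1 (2 ^ (i + 1))) ≤
      Real.sin y * (1 / Real.sin (v / 2 ^ (i + 1))) := by
    intro i _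
    set x := xd D 1 (2 ^ (i + 1)) with hx
    have hc : (2 ^ (i + 1)).Coprime D := Nat.Coprime.pow_left _ hcop
    have h1 : 1 * D ≤ 2 ^ (i + 1) * x + 1 := by
      apply xd_ge hc (by omega) _ (one_dvd _) (one_dvd _)
      intro h
      have h2 := Nat.le_of_dvd one_pos h
      have h3 : 2 ≤ 2 ^ (i + 1) := by
        rw [pow_succ]
        have : 0 < 2 ^ i := by positivity
        omega
      omega
    have h2 : 2 * x ≤ D := two_mul_xd_le (by omega) _ _
    have hpow : (0 : ℝ) < 2 ^ (i + 1) := by positivity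
    have h3 : v / 2 ^ (i + 1) ≤ π * x / D := by
      have e : π * x / D = y * x := by rw [hy]; ring
      rw [e, div_le_iff₀ hpow]
      have h4 : (D : ℝ) ≤ 2 ^ (i + 1) * x + 1 := by
        have : D ≤ 2 ^ (i + 1) * x + 1 := by omega
        exact_mod_cast this
      have h5 : y * D ≤ y * (2 ^ (i + 1) * x + 1) := mul_le_mul_of_nonneg_left h4 hy0.le
      rw [hyD] at h5
      rw [hv]
      linarith
    have h4 : π * x / D ≤ π / 2 := by
      rw [div_le_div_iff₀ (by linarith) (by norm_num)]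
      have : (2 : ℝ) * x ≤ D := by exact_mod_cast h2
      nlinarith
    have hvp : 0 < v / 2 ^ (i + 1) := by positivity
    have h5 : Real.sin (v / 2 ^ (i + 1)) ≤ Real.sin (π * x / D) :=
      Real.sin_le_sin_of_le_of_le_pi_div_two (by linarith) h4 h3
    have h6 : 0 < Real.sin (v / 2 ^ (i + 1)) :=
      Real.sin_pos_of_pos_of_lt_pi hvp (by linarith)
    unfold f
    rw [mul_one_div]
    exact div_le_div_of_nonneg_left hsy.le h6 h5
  have hsum := Finset.sum_le_sum hle
  rw [← Finset.mul_sum, tele hv0 hvpi j] at hsum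
  refine lt_of_le_of_lt hsum ?_
  -- the two cotangents
  set w : ℝ := v / 2 ^ (j + 1) with hw
  have hpow : (0 : ℝ) < 2 ^ (j + 1) := by positivity
  have hw0 : 0 < w := by positivity
  have hw2 : w ≤ v / 2 := by
    rw [hw]
    apply div_le_div_of_nonneg_left hv0.le (by norm_num)
    rw [pow_succ]
    have : (1 : ℝ) ≤ 2 ^ j := one_le_pow₀ (by norm_num)
    linarith
  have hwp : w < π / 2 := by linarith
  have hsw : 0 < Real.sin w := Real.sin_pos_of_pos_of_lt_pi hw0 (by linarith)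
  have hcw : 0 < Real.cos w := Real.cos_pos_of_mem_Ioo ⟨by linarith, hwp⟩
  have hcot : Real.cos w / Real.sin w < 1 / w := by
    have h1 := Real.lt_tan hw0 hwp
    rw [Real.tan_eq_sin_div_cos, lt_div_iff₀ hcw] at h1
    rw [div_lt_div_iff₀ hsw hw0]
    linarith
  have h1 : Real.sin y * (Real.cos w / Real.sin w) < 2 ^ (j + 1) / ((D : ℝ) - 1) := by
    calc Real.sin y * (Real.cos w / Real.sin w) < Real.sin y * (1 / w) :=
          mul_lt_mul_of_pos_left hcot hsy
      _ ≤ y * (1 / w) := mul_le_mul_of_nonneg_right (Real.sin_le hy0.le) (by positivity)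
      _ = 2 ^ (j + 1) / ((D : ℝ) - 1) := by
          have h2 : v = y * (D - 1) := by rw [hv, mul_sub, hyD, mul_one]
          have h3 : (D : ℝ) - 1 ≠ 0 := by linarith
          rw [hw, h2]
          field_simp
  have h2 : Real.sin y * (Real.cos (v / 2) / Real.sin (v / 2)) = 1 - Real.cos y := by
    have e : v / 2 = π / 2 - y / 2 := by rw [hv]; ring
    rw [e, Real.cos_pi_div_two_sub, Real.sin_pi_div_two_sub]
    have hc2 : 0 < Real.cos (y / 2) := Real.cos_pos_of_mem_Ioo ⟨by linarith, by linarith⟩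
    have hyy : y = 2 * (y / 2) := by ring
    have e1 : Real.sin y = 2 * Real.sin (y / 2) * Real.cos (y / 2) := by
      conv_lhs => rw [hyy]
      exact Real.sin_two_mul _
    have e2 : Real.cos y = 1 - 2 * Real.sin (y / 2) ^ 2 := by
      conv_lhs => rw [hyy]
      rw [Real.cos_two_mul]
      have := Real.sin_sq_add_cos_sq (y / 2)
      linarith
    rw [e1, e2]
    field_simp
    ring
  rw [mul_sub, h2]
  linarith

/-- (D1): only powers of two. -/
theorem D_eq_of_Pw {D j : ℕ} (h : Sys D (Pw j)) (hj : 1 ≤ j) : D = 2 ^ (j + 1) - 1 := by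
  have h2mem : 2 ∈ Pw j := mem_Pw.2 ⟨1, hj, by norm_num⟩
  have h1mem : 1 ∈ Pw j := mem_Pw.2 ⟨0, by omega, by norm_num⟩
  have hcop : Nat.Coprime 2 D := h.cop 2 h2mem
  have hsum := h.sum_le
  rw [sum_Pw, sum_two_pow] at hsum
  have hpow4 : 4 ≤ 2 ^ (j + 1) := by
    calc 4 = 2 ^ 2 := by norm_num
      _ ≤ 2 ^ (j + 1) := Nat.pow_le_pow_right (by norm_num) (by omega)
  have hD3 : 3 ≤ D := by omega
  have hC := h.C 1 h1mem
  rw [Finset.sum_erase_eq_sub h1mem, sum_Pw, Finset.sum_range_succ'] at hC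
  simp only [pow_zero, add_sub_cancel_right] at hC
  have hb := tele_bound (j := j) hD3 hcop
  have hc1 : Real.cos (π / D) ≤ 1 := Real.cos_le_one _
  have h3 : (1 : ℝ) < 2 ^ (j + 1) / ((D : ℝ) - 1) := by linarith
  have hD' : (3 : ℝ) ≤ D := by exact_mod_cast hD3
  rw [lt_div_iff₀ (by linarith)] at h3
  have h4 : (D : ℝ) < 2 ^ (j + 1) + 1 := by linarith
  have h5 : D < 2 ^ (j + 1) + 1 := by exact_mod_cast h4
  have h6 : D ≠ 2 ^ (j + 1) := by
    intro h7
    have h8 : 2 ∣ D := by rw [h7]; exact dvd_pow_self 2 (by omega)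
    have h9 : 2 ∣ Nat.gcd 2 D := Nat.dvd_gcd (dvd_refl 2) h8
    rw [hcop] at h9
    omega
  omega

/-- sums of the rational bound over a block of consecutive powers -/
lemma blk {F : ℕ → ℝ} {z Q : ℝ} (s n : ℕ)
    (h : ∀ i < n, F (s + i) ≤ 1 / (z / 2 ^ (s + i)) + Q * (z / 2 ^ (s + i))) :
    ∑ i ∈ range n, F (s + i) ≤
      (2 ^ (s + n) - 2 ^ s) / z + Q * z * (2 / 2 ^ s - 2 / 2 ^ (s + n)) := by
  induction n with
  | zero => simp
  | succ n ih =>
    rw [Finset.sum_range_succ]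
    have h1 := ih (fun i hi => h i (by omega))
    have h2 := h n (by omega)
    have e : (2 : ℝ) ^ (s + (n + 1)) = 2 * 2 ^ (s + n) := by
      rw [← add_assoc, pow_succ]; ring
    have e2 : (2 ^ (s + (n + 1)) - 2 ^ s) / z + Q * z * (2 / 2 ^ s - 2 / 2 ^ (s + (n + 1))) =
        ((2 ^ (s + n) - 2 ^ s) / z + Q * z * (2 / 2 ^ s - 2 / 2 ^ (s + n))) +
        (1 / (z / 2 ^ (s + n)) + Q * (z / 2 ^ (s + n))) := by
      rw [e, one_div_div]
      have hp : (2 : ℝ) ^ (s + n) ≠ 0 := by positivity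
      have hp' : (2 : ℝ) ^ s ≠ 0 := by positivity
      field_simp
      ring
    rw [e2]
    linarith

/-- Setting of (D2): consequences of `C(1)`. -/
lemma D2_basic {D j a : ℕ} (h : Sys D (insert a (Pw j))) (hj : 1 ≤ j) (ha : 2 ^ j < a)
    (ha' : a ≠ 2 ^ (j + 1)) :
    2 ^ (j + 1) - 1 + a ≤ D ∧ D ≤ 2 ^ (j + 2) - 1 ∧ a < 2 ^ (j + 1) ∧ Nat.Coprime 2 D ∧
    a.Coprime D ∧ (1 : ℝ) < 2 ^ (j + 1) / ((D : ℝ) - 1) + f D (xd D 1 a) ∧
    1 ≤ ∑ i ∈ range (j + 1), f D (xd D a (2 ^ i)) := by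
  have hanot : a ∉ Pw j := by
    intro h1
    obtain ⟨i, hi, h2⟩ := mem_Pw.1 h1
    have h3 : 2 ^ i ≤ 2 ^ j := Nat.pow_le_pow_right (by norm_num) hi
    omega
  have h2mem : 2 ∈ insert a (Pw j) := mem_insert_of_mem (mem_Pw.2 ⟨1, hj, by norm_num⟩)
  have h1mem : 1 ∈ insert a (Pw j) := mem_insert_of_mem (mem_Pw.2 ⟨0, by omega, by norm_num⟩)
  have h1mem' : 1 ∈ Pw j := mem_Pw.2 ⟨0, by omega, by norm_num⟩
  have hamem : a ∈ insert a (Pw j) := mem_insert_self _ _
  have hcop : Nat.Coprime 2 D := h.cop 2 h2mem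
  have hacop : a.Coprime D := h.cop a hamem
  have hsum := h.sum_le
  rw [Finset.sum_insert hanot, sum_Pw, sum_two_pow] at hsum
  have hpow4 : 4 ≤ 2 ^ (j + 1) := by
    calc 4 = 2 ^ 2 := by norm_num
      _ ≤ 2 ^ (j + 1) := Nat.pow_le_pow_right (by norm_num) (by omega)
  have hpow2 : 2 ≤ 2 ^ j := by
    calc 2 = 2 ^ 1 := by norm_num
      _ ≤ 2 ^ j := Nat.pow_le_pow_right (by norm_num) (by omega)
  have hDa : 2 ^ (j + 1) - 1 + a ≤ D := by omega
  have hD6 : 6 ≤ D := by omega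
  have hD' : (6 : ℝ) ≤ D := by exact_mod_cast hD6
  have hC := h.C 1 h1mem
  have hne : (1 : ℕ) ≠ a := by omega
  rw [Finset.erase_insert_of_ne (by omega : a ≠ 1), Finset.sum_insert
    (fun h => hanot (mem_of_mem_erase h)), Finset.sum_erase_eq_sub h1mem', sum_Pw,
    Finset.sum_range_succ'] at hC
  simp only [pow_zero, add_sub_cancel_right] at hC
  have hb := tele_bound (j := j) (by omega : 3 ≤ D) hcop
  have hc1 : Real.cos (π / D) ≤ 1 := Real.cos_le_one _
  have hfin : (1 : ℝ) < 2 ^ (j + 1) / ((D : ℝ) - 1) + f D (xd D 1 a) := by linarith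
  -- `x_{1a} ≥ 2`
  have hx2 : 2 ≤ xd D 1 a := by
    have hx0 : 0 < xd D 1 a := xd_pos (by omega) (Nat.coprime_one_left D) hacop
    by_contra hcon
    have hx1 : xd D 1 a = 1 := by omega
    obtain ⟨t, ht | ht⟩ := xd_spec hacop (show 1 < D by omega)
    · rw [hx1] at ht
      rcases Nat.eq_zero_or_pos t with rfl | h0
      · omega
      · have : 1 * D ≤ t * D := Nat.mul_le_mul_right _ h0
        omega
    · rw [hx1] at ht
      rcases Nat.eq_zero_or_pos t with rfl | h0
      · omega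
      · have : 1 * D ≤ t * D := Nat.mul_le_mul_right _ h0
        omega
  have hf2 : f D (xd D 1 a) ≤ f D 2 := f_antitone (by norm_num) hx2 (two_mul_xd_le (by omega) _ _)
  -- `f 2 = 1/(2 cos y)`
  set y : ℝ := π / D with hy
  have hpi := Real.pi_pos
  have hy0 : 0 < y := by positivity
  have hyD : y * D = π := by rw [hy]; field_simp
  have hy3 : 6 * y ≤ π := by nlinarith
  have hcy : 1 / 2 ≤ Real.cos y := by
    rw [← Real.cos_pi_div_three]
    apply Real.cos_le_cos_of_nonneg_of_le_pi hy0.le (by linarith) (by linarith)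
  have hsy : 0 < Real.sin y := Real.sin_pos_of_pos_of_lt_pi hy0 (by linarith)
  have hf2' : f D 2 = 1 / (2 * Real.cos y) := by
    unfold f
    have e : π * (2 : ℕ) / D = 2 * y := by rw [hy]; push_cast; ring
    rw [e, Real.sin_two_mul, ← hy]
    field_simp
  have hkey : 1 / (2 * Real.cos y) - (1 - Real.cos y) ≤ 1 / 2 := by
    have e : 1 / (2 * Real.cos y) - (1 - Real.cos y) - 1 / 2 =
        (2 * Real.cos y - 1) * (Real.cos y - 1) / (2 * Real.cos y) := by
      field_simp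
      ring
    have h5 : (2 * Real.cos y - 1) * (Real.cos y - 1) / (2 * Real.cos y) ≤ 0 := by
      apply div_nonpos_of_nonpos_of_nonneg
      · apply mul_nonpos_of_nonneg_of_nonpos (by linarith) (by linarith)
      · linarith
    linarith
  have h3 : (1 / 2 : ℝ) < 2 ^ (j + 1) / ((D : ℝ) - 1) := by
    rw [hf2'] at hf2
    linarith
  rw [lt_div_iff₀ (by linarith)] at h3
  have h4 : (D : ℝ) < 2 ^ (j + 2) + 1 := by
    rw [pow_succ 2 (j + 1)]
    linarith
  have h5 : D < 2 ^ (j + 2) + 1 := by exact_mod_cast h4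
  have h6 : D ≠ 2 ^ (j + 2) := by
    intro h7
    have h8 : 2 ∣ D := by rw [h7]; exact dvd_pow_self 2 (by omega)
    have h9 : 2 ∣ Nat.gcd 2 D := Nat.dvd_gcd (dvd_refl 2) h8
    rw [hcop] at h9
    omega
  have hp : 2 ^ (j + 2) = 2 * 2 ^ (j + 1) := by rw [pow_succ 2 (j + 1)]; ring
  refine ⟨hDa, by omega, by omega, hcop, hacop, hfin, ?_⟩
  have hCa := h.C a hamem
  rw [Finset.erase_insert hanot, sum_Pw] at hCa
  exact hCa

end Pool.Agent.Helper27.FK
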