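import Mathlib
import Pool.Agent.Helper47.FK.D

/-!
The exact top scale, second part: `I = {1, 2, …, 2^j} ∪ {a}`.
-/

namespace Pool.Agent.Helper27.FK

open Finset Real

/-- the numerical inequality for `a` even -/
lemma even_ineq {V M E A z Q : ℝ} (hDr : 0 < E) (har : 0 < A) (hz0 : 0 < z)
    (hz : z = V * E - A) (hQ : Q = 2.2832 / E ^ 2) (h2ar : 2 * A ≤ E)
    (hV2r : 2 * V ≤ M) (hpjr : 8 ≤ M) (haVr : M + V ≤ A) (h3vr : 3 * V ≤ A)
    (hDar : 2 * M - 1 + A ≤ E) (hV2' : 2 ≤ V) (hVcase' : V = 2 ∨ 4 ≤ V) :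
    (2 * V - 1) / A + Q * A * (2 / 1 - 2 / (2 * V)) + ((2 * M - 2 * V) / z +
      Q * z * (2 / (2 * V) - 2 / (2 * M))) < 1 := by
  have hQ0 : 0 < Q := by rw [hQ]; positivity
  have hgain : Q * A * (2 / 1 - 2 / (2 * V)) + Q * z * (2 / (2 * V) - 2 / (2 * M)) ≤
      4.5664 / E := by
    have g1 : Q * A * (2 / 1 - 2 / (2 * V)) ≤ Q * A * 2 := by
      apply mul_le_mul_of_nonneg_left _ (by positivity)
      have : 0 ≤ 2 / (2 * V) := by positivity
      linarith
    have g2 : Q * z * (2 / (2 * V) - 2 / (2 * M)) ≤ Q * E := by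
      have g3 : Q * z * (2 / (2 * V) - 2 / (2 * M)) ≤ Q * z * (1 / V) := by
        apply mul_le_mul_of_nonneg_left _ (by positivity)
        have g4 : 0 ≤ 2 / (2 * M) := by positivity
        have g5 : 2 / (2 * V) = 1 / V := by field_simp
        linarith
      have g6 : Q * z * (1 / V) = Q * (z / V) := by ring
      have g7 : z / V ≤ E := by
        rw [div_le_iff₀ (by linarith), hz]
        linarith
      rw [g6] at g3
      exact g3.trans (mul_le_mul_of_nonneg_left g7 hQ0.le)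
    have g8 : Q * A * 2 + Q * E ≤ Q * (2 * E) := by
      have := mul_le_mul_of_nonneg_left h2ar hQ0.le
      linarith
    have g9 : Q * (2 * E) = 4.5664 / E := by
      rw [hQ]; field_simp; norm_num
    linarith
  have hE : 3 * M ≤ E := by linarith
  have hE24 : 4.5664 / E ≤ 4.5664 / (3 * M) :=
    div_le_div_of_nonneg_left (by norm_num) (by linarith) hE
  rcases hVcase' with h4 | h4
  · -- V = 2
    subst h4
    have hM1 : 4.5664 / (3 * M) ≤ 0.19027 := by
      rw [div_le_iff₀ (by linarith)]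
      linarith
    have k1 : (2 * 2 - 1) / A ≤ 0.3 := by
      rw [div_le_iff₀ har]
      linarith
    have k2 : (2 * M - 2 * 2) / z ≤ 2 / 5 := by
      rw [div_le_iff₀ hz0, hz]
      linarith
    norm_num at k1 k2 hM1 hE24 hgain ⊢
    linarith
  · have k1 : (2 * V - 1) / A ≤ 2 / 3 - 2 / (3 * M) := by
      have k3 : (2 * V - 1) / A ≤ (2 * V - 1) / (3 * V) :=
        div_le_div_of_nonneg_left (by linarith) (by linarith) h3vr
      have k4 : (2 * V - 1) / (3 * V) = 2 / 3 - 1 / (3 * V) := by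
        field_simp
      have k5 : 2 / (3 * M) ≤ 1 / (3 * V) := by
        rw [div_le_div_iff₀ (by linarith) (by linarith)]
        linarith
      linarith
    have k2 : (2 * M - 2 * V) / z ≤ 2 / 11 := by
      rw [div_le_iff₀ hz0, hz]
      have k6 : V * (2 * M - 1 + A) ≤ V * E := mul_le_mul_of_nonneg_left hDar (by linarith)
      have k7 : 4 * M ≤ V * M := mul_le_mul_of_nonneg_right h4 (by linarith)
      have k8 : (V - 1) * (M + V) ≤ (V - 1) * A :=
        mul_le_mul_of_nonneg_left haVr (by linarith)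
      have k9 : 4 * V ≤ V * V := mul_le_mul_of_nonneg_right h4 (by linarith)
      linarith
    have k9 : 4.5664 / (3 * M) - 2 / (3 * M) ≤ 2.5664 / 24 := by
      rw [← sub_div]
      rw [div_le_div_iff₀ (by linarith) (by norm_num)]
      linarith
    norm_num at k9 hE24 hgain ⊢
    linarith

/-- `a` even is impossible. -/
lemma D2_even {D j a : ℕ} (h : Sys D (insert a (Pw j))) (hj : 3 ≤ j) (ha : 2 ^ j < a)
    (ha' : a ≠ 2 ^ (j + 1)) (hev : 2 ∣ a) : False := by
  obtain ⟨hDa, hD4, ha2, h2c, hac, hC1, hCa⟩ := D2_basic h (by omega) ha ha'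
  obtain ⟨v, m, hm, hvm⟩ := Nat.exists_eq_two_pow_mul_odd (show a ≠ 0 by omega)
  have hv1 : 1 ≤ v := by
    rcases Nat.eq_zero_or_pos v with h0 | h0
    · rw [h0, pow_zero, one_mul] at hvm
      rw [hvm] at hev
      obtain ⟨q, hq⟩ := hm
      omega
    · exact h0
  have hm1 : m ≠ 1 := by
    intro h1
    rw [h1, mul_one] at hvm
    rw [hvm] at ha ha2
    have h2 := (Nat.pow_lt_pow_iff_right (by norm_num : 1 < 2)).1 ha
    have h3 := (Nat.pow_lt_pow_iff_right (by norm_num : 1 < 2)).1 ha2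
    omega
  have hm3 : 3 ≤ m := by
    obtain ⟨q, hq⟩ := hm
    omega
  have h3v : 3 * 2 ^ v ≤ a := by
    rw [hvm, mul_comm]
    exact Nat.mul_le_mul_left _ hm3
  have hvj : v < j := by
    by_contra hcon
    have h1 : 2 ^ j ≤ 2 ^ v := Nat.pow_le_pow_right (by norm_num) (by omega)
    have h2 : 2 ^ (j + 1) = 2 * 2 ^ j := by rw [pow_succ]; ring
    omega
  have hVa : 2 ^ v ∣ a := ⟨m, hvm⟩
  have hnd : ∀ i, v < i → ¬ 2 ^ i ∣ a := by
    intro i hi hdvd
    have h1 : 2 ^ (v + 1) ∣ a := (Nat.pow_dvd_pow 2 (by omega)).trans hdvd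
    rw [hvm, pow_succ] at h1
    have h2 := Nat.dvd_of_mul_dvd_mul_left (by positivity) h1
    obtain ⟨q, hq⟩ := hm
    omega
  have hcpow : ∀ i, (2 ^ i).Coprime D := fun i => Nat.Coprime.pow_left _ h2c
  obtain ⟨k, hk⟩ : ∃ k, j + 1 = v + 1 + k := ⟨j - v, by omega⟩
  -- real quantities
  set Q : ℝ := 2.2832 / (D : ℝ) ^ 2 with hQ
  set z : ℝ := 2 ^ v * (D : ℝ) - a with hz
  have hpj : (8 : ℕ) ≤ 2 ^ j := by
    calc 8 = 2 ^ 3 := by norm_num
      _ ≤ 2 ^ j := Nat.pow_le_pow_right (by norm_num) hj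
  have hjj : 2 ^ (j + 1) = 2 * 2 ^ j := by rw [pow_succ]; ring
  have h2a : 2 * a ≤ D := by omega
  have haV : 2 ^ j + 2 ^ v ≤ a := by
    -- both are multiples of `2^v`
    have h1 : 2 ^ v ∣ 2 ^ j := Nat.pow_dvd_pow 2 hvj.le
    obtain ⟨q, hq⟩ := h1
    have h2 : 2 ^ v * q < 2 ^ v * m := by rw [← hq, ← hvm]; exact ha
    have h3 : q < m := lt_of_mul_lt_mul_left h2 (Nat.zero_le _)
    calc 2 ^ j + 2 ^ v = 2 ^ v * (q + 1) := by rw [hq]; ring
      _ ≤ 2 ^ v * m := Nat.mul_le_mul_left _ h3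
      _ = a := hvm.symm
  have hV2 : 2 * 2 ^ v ≤ 2 ^ j := by
    calc 2 * 2 ^ v = 2 ^ (v + 1) := by rw [pow_succ]; ring
      _ ≤ 2 ^ j := Nat.pow_le_pow_right (by norm_num) hvj
  have hDr : (0 : ℝ) < D := by
    have : 0 < D := by omega
    exact_mod_cast this
  have har : (0 : ℝ) < a := by
    have : 0 < a := by omega
    exact_mod_cast this
  have hVr : (1 : ℝ) ≤ 2 ^ v := one_le_pow₀ (by norm_num)
  have h2ar : 2 * (a : ℝ) ≤ D := by exact_mod_cast h2a
  have hz0 : 0 < z := by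
    rw [hz]
    nlinarith
  have hB1 : ∑ i ∈ range (v + 1), f D (xd D a (2 ^ (0 + i))) ≤
      (2 ^ (0 + (v + 1)) - 2 ^ 0) / (a : ℝ) + Q * a * (2 / 2 ^ 0 - 2 / 2 ^ (0 + (v + 1))) := by
    apply blk (F := fun i => f D (xd D a (2 ^ i)))
    intro i hi
    have hdvd : 2 ^ (0 + i) ∣ a := (Nat.pow_dvd_pow 2 (by omega)).trans hVa
    have hle : a / 2 ^ (0 + i) ≤ a := Nat.div_le_self _ _
    have hx : xd D a (2 ^ (0 + i)) = a / 2 ^ (0 + i) :=
      xd_div (by omega) (hcpow _) hdvd (by omega)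
    show f D (xd D a (2 ^ (0 + i))) ≤ _
    rw [hx]
    have hcast : ((a / 2 ^ (0 + i) : ℕ) : ℝ) = (a : ℝ) / 2 ^ (0 + i) := by
      rw [Nat.cast_div hdvd (by positivity)]
      push_cast
      rfl
    have h1 := f_le_real (D := D) (x := a / 2 ^ (0 + i)) (z := (a : ℝ) / 2 ^ (0 + i))
      (by positivity) hcast.ge (by omega)
    refine h1.trans (le_of_eq ?_)
    rw [hQ]
    ring
  have hB2 : ∑ i ∈ range k, f D (xd D a (2 ^ (v + 1 + i))) ≤
      (2 ^ (v + 1 + k) - 2 ^ (v + 1)) / z + Q * z * (2 / 2 ^ (v + 1) - 2 / 2 ^ (v + 1 + k)) := by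
    apply blk (F := fun i => f D (xd D a (2 ^ i)))
    intro i hi
    show f D (xd D a (2 ^ (v + 1 + i))) ≤ _
    have h1 : 2 ^ v * D ≤ 2 ^ (v + 1 + i) * xd D a (2 ^ (v + 1 + i)) + a :=
      xd_ge (hcpow _) (by omega) (hnd _ (by omega)) (Nat.pow_dvd_pow 2 (by omega)) hVa
    have h1r : z ≤ 2 ^ (v + 1 + i) * (xd D a (2 ^ (v + 1 + i)) : ℝ) := by
      have : (2 : ℝ) ^ v * D ≤ 2 ^ (v + 1 + i) * (xd D a (2 ^ (v + 1 + i)) : ℝ) + a := by
        exact_mod_cast h1
      rw [hz]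
      linarith
    have h2 := f_le_real (D := D) (x := xd D a (2 ^ (v + 1 + i))) (z := z / 2 ^ (v + 1 + i))
      (by positivity) (by rw [div_le_iff₀ (by positivity)]; linarith)
      (two_mul_xd_le (by omega) _ _)
    refine h2.trans (le_of_eq ?_)
    rw [hQ]
    ring
  have hsplit : ∑ i ∈ range (j + 1), f D (xd D a (2 ^ i)) =
      ∑ i ∈ range (v + 1), f D (xd D a (2 ^ (0 + i))) +
      ∑ i ∈ range k, f D (xd D a (2 ^ (v + 1 + i))) := by
    rw [hk, Finset.sum_range_add]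
    simp only [zero_add]
  rw [hsplit] at hCa
  have hsum := add_le_add hB1 hB2
  have hCa2 := hCa.trans hsum
  have e1 : (2 : ℝ) ^ (0 + (v + 1)) = 2 * 2 ^ v := by rw [zero_add, pow_succ]; ring
  have e2 : (2 : ℝ) ^ (v + 1) = 2 * 2 ^ v := by rw [pow_succ]; ring
  have e3 : (2 : ℝ) ^ (v + 1 + k) = 2 * 2 ^ j := by rw [← hk, pow_succ]; ring
  rw [e1, e2, e3, pow_zero] at hCa2
  have hV2r : 2 * (2 : ℝ) ^ v ≤ 2 ^ j := by exact_mod_cast hV2
  have hpjr : (8 : ℝ) ≤ 2 ^ j := by exact_mod_cast hpj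
  have haVr : (2 : ℝ) ^ j + 2 ^ v ≤ a := by exact_mod_cast haV
  have h3vr : 3 * (2 : ℝ) ^ v ≤ a := by exact_mod_cast h3v
  have hDar : 2 * (2 : ℝ) ^ j - 1 + a ≤ D := by
    have h1 : 2 * 2 ^ j + a ≤ D + 1 := by omega
    have : 2 * (2 : ℝ) ^ j + a ≤ D + 1 := by exact_mod_cast h1
    linarith
  have hV2' : (2 : ℝ) ≤ 2 ^ v := by
    calc (2 : ℝ) = 2 ^ 1 := by norm_num
      _ ≤ 2 ^ v := pow_le_pow_right₀ (by norm_num) hv1
  have hVcase : v = 1 ∨ (4 : ℝ) ≤ 2 ^ v := by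
    rcases Nat.lt_or_ge v 2 with h1 | h1
    · left; omega
    · right
      calc (4 : ℝ) = 2 ^ 2 := by norm_num
        _ ≤ 2 ^ v := pow_le_pow_right₀ (by norm_num) h1
  have hVcase' : (2 : ℝ) ^ v = 2 ∨ (4 : ℝ) ≤ 2 ^ v := by
    rcases hVcase with h1 | h1
    · left; rw [h1]; norm_num
    · right; exact h1
  have hlt := even_ineq hDr har hz0 hz hQ h2ar hV2r hpjr haVr h3vr hDar hV2' hVcase'
  linarith

/-- the numerical inequality for `a` odd -/
lemma odd_ineq {M E A Q : ℝ} (hA : M + 1 ≤ A) (hA2 : A ≤ 2 * M) (hQ : Q = 2.2832 / E ^ 2)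
    (h2ar : 2 * A ≤ E) (hM : 8 ≤ M) (hDar : 2 * M - 1 + A ≤ E) :
    (1 / A + Q * A) + ((M - 2) / (E - A) + Q * (E - A) * (2 / 2 - 2 / M)) +
      (M / (E + A) + Q * ((E + A) / M)) < 1 := by
  have hE : 24 ≤ E := by linarith
  have hQ0 : 0 < Q := by rw [hQ]; positivity
  have g1 : Q * A + Q * (E - A) * (2 / 2 - 2 / M) + Q * ((E + A) / M) ≤ Q * (E + 2) := by
    have e : Q * A + Q * (E - A) * (2 / 2 - 2 / M) + Q * ((E + A) / M) =
        Q * (E + (3 * A - E) / M) := by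
      field_simp
      ring
    rw [e]
    apply mul_le_mul_of_nonneg_left _ hQ0.le
    have : (3 * A - E) / M ≤ 2 := by
      rw [div_le_iff₀ (by linarith)]
      linarith
    linarith
  have g2 : Q * (E + 2) ≤ 0.104 := by
    rw [hQ, div_mul_eq_mul_div, div_le_iff₀ (by positivity)]
    nlinarith
  have g3 : 1 / A ≤ 1 / 9 := by
    apply div_le_div_of_nonneg_left (by norm_num) (by norm_num) (by linarith)
  have g4 : (M - 2) / (E - A) ≤ 1 / 2 := by
    rw [div_le_iff₀ (by linarith)]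
    linarith
  have g5 : M / (E + A) ≤ 1 / 4 := by
    rw [div_le_iff₀ (by linarith)]
    linarith
  norm_num at g2 g3 g4 g5 ⊢
  linarith

/-- (D2) for `j ≥ 3`. -/
lemma D2_large {D j a : ℕ} (h : Sys D (insert a (Pw j))) (hj : 3 ≤ j) (ha : 2 ^ j < a)
    (ha' : a ≠ 2 ^ (j + 1)) : D = 2 ^ (j + 2) - 1 ∧ a = 2 ^ (j + 1) - 1 := by
  obtain ⟨hDa, hD4, ha2, h2c, hac, hC1, hCa⟩ := D2_basic h (by omega) ha ha'
  have hodd : ¬ 2 ∣ a := fun h2 => D2_even h hj ha ha' h2
  have hcpow : ∀ i, (2 ^ i).Coprime D := fun i => Nat.Coprime.pow_left _ h2c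
  have hjj : 2 ^ (j + 1) = 2 * 2 ^ j := by rw [pow_succ]; ring
  have hjj2 : 2 ^ (j + 2) = 4 * 2 ^ j := by rw [pow_succ, pow_succ]; ring
  have hpj : (8 : ℕ) ≤ 2 ^ j := by
    calc 8 = 2 ^ 3 := by norm_num
      _ ≤ 2 ^ j := Nat.pow_le_pow_right (by norm_num) hj
  have h2a : 2 * a ≤ D := by omega
  have hndvd : ∀ i, 1 ≤ i → ¬ 2 ^ i ∣ a := by
    intro i hi hdvd
    exact hodd ((dvd_pow_self 2 (by omega)).trans hdvd)
  have h2ar : 2 * (a : ℝ) ≤ D := by exact_mod_cast h2a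
  have hpjr : (8 : ℝ) ≤ 2 ^ j := by exact_mod_cast hpj
  have hA : (2 : ℝ) ^ j + 1 ≤ a := by
    have : 2 ^ j + 1 ≤ a := ha
    exact_mod_cast this
  have hA2 : (a : ℝ) ≤ 2 * 2 ^ j := by
    have : a ≤ 2 * 2 ^ j := by omega
    exact_mod_cast this
  have hDar : 2 * (2 : ℝ) ^ j - 1 + a ≤ D := by
    have h1 : 2 * 2 ^ j + a ≤ D + 1 := by omega
    have : 2 * (2 : ℝ) ^ j + a ≤ D + 1 := by exact_mod_cast h1
    linarith
  have hDr : (0 : ℝ) < D := by linarith
  have har : (0 : ℝ) < a := by linarith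
  -- step 1 : `2 ^ j ∣ D - a`
  have hdvd : 2 ^ j ∣ D - a := by
    by_contra hnd
    set Q : ℝ := 2.2832 / (D : ℝ) ^ 2 with hQ
    obtain ⟨k, hk⟩ : ∃ k, j = 1 + k := ⟨j - 1, by omega⟩
    have hF0 : f D (xd D a (2 ^ 0)) ≤ 1 / (a : ℝ) + Q * a := by
      have hx : xd D a (2 ^ 0) = a / 2 ^ 0 := xd_div (by omega) (hcpow _) (by simp) (by
        rw [pow_zero, Nat.div_one]; exact h2a)
      rw [hx, pow_zero, Nat.div_one]
      have := f_le_real (D := D) (x := a) (z := (a : ℝ)) har le_rfl h2a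
      refine this.trans (le_of_eq ?_)
      rw [hQ]
      ring
    have hB : ∑ i ∈ range k, f D (xd D a (2 ^ (1 + i))) ≤
        (2 ^ (1 + k) - 2 ^ 1) / ((D : ℝ) - a) +
          Q * ((D : ℝ) - a) * (2 / 2 ^ 1 - 2 / 2 ^ (1 + k)) := by
      apply blk (F := fun i => f D (xd D a (2 ^ i)))
      intro i hi
      show f D (xd D a (2 ^ (1 + i))) ≤ _
      have h1 : 1 * D ≤ 2 ^ (1 + i) * xd D a (2 ^ (1 + i)) + a :=
        xd_ge (hcpow _) (by omega) (hndvd _ (by omega)) (one_dvd _) (one_dvd _)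
      have h1r : (D : ℝ) - a ≤ 2 ^ (1 + i) * (xd D a (2 ^ (1 + i)) : ℝ) := by
        have h2 : D ≤ 2 ^ (1 + i) * xd D a (2 ^ (1 + i)) + a := by omega
        have : (D : ℝ) ≤ 2 ^ (1 + i) * (xd D a (2 ^ (1 + i)) : ℝ) + a := by
          exact_mod_cast h2
        linarith
      have hz0 : 0 < (D : ℝ) - a := by linarith
      have h2 := f_le_real (D := D) (x := xd D a (2 ^ (1 + i)))
        (z := ((D : ℝ) - a) / 2 ^ (1 + i))
        (by positivity) (by rw [div_le_iff₀ (by positivity)]; linarith)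
        (two_mul_xd_le (by omega) _ _)
      refine h2.trans (le_of_eq ?_)
      rw [hQ]
      ring
    have hFj : f D (xd D a (2 ^ j)) ≤ 2 ^ j / ((D : ℝ) + a) + Q * (((D : ℝ) + a) / 2 ^ j) := by
      have h1 : D + a ≤ 2 ^ j * xd D a (2 ^ j) :=
        xd_ge_add (hcpow _) h2a (by omega) (hndvd _ (by omega)) hnd
      have h1r : (D : ℝ) + a ≤ 2 ^ j * (xd D a (2 ^ j) : ℝ) := by exact_mod_cast h1
      have h2 := f_le_real (D := D) (x := xd D a (2 ^ j)) (z := ((D : ℝ) + a) / 2 ^ j)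
        (by positivity) (by rw [div_le_iff₀ (by positivity)]; linarith)
        (two_mul_xd_le (by omega) _ _)
      refine h2.trans (le_of_eq ?_)
      rw [hQ, one_div_div]
      ring
    have hsplit : ∑ i ∈ range (j + 1), f D (xd D a (2 ^ i)) =
        f D (xd D a (2 ^ 0)) + ∑ i ∈ range k, f D (xd D a (2 ^ (1 + i))) +
        f D (xd D a (2 ^ j)) := by
      rw [Finset.sum_range_succ, hk, Finset.sum_range_add]
      simp
    rw [hsplit] at hCa
    rw [← hk, pow_one] at hB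
    have hlt := odd_ineq hA hA2 hQ h2ar hpjr hDar
    exact absurd (hCa.trans (add_le_add (add_le_add hF0 hB) hFj)) (not_le.2 hlt)
  -- step 2 : `D = 2 ^ (j + 1) + a`
  have hDeq : D = 2 * 2 ^ j + a := by
    obtain ⟨q, hq⟩ := hdvd
    have h1 : q < 3 := by
      by_contra hcon
      have h2 : 2 ^ j * 3 ≤ 2 ^ j * q := Nat.mul_le_mul_left _ (by omega)
      omega
    have h2 : 2 ≤ q := by
      by_contra hcon
      have h3 : 2 ^ j * q ≤ 2 ^ j * 1 := Nat.mul_le_mul_left _ (by omega)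
      omega
    have h3 : q = 2 := by omega
    rw [h3] at hq
    omega
  -- step 3 : `a = 2 ^ (j + 1) - 1`
  have haeq : a = 2 ^ (j + 1) - 1 := by
    by_contra hne
    have hx5 : 5 ≤ xd D 1 a := by
      by_contra hcon
      obtain ⟨t, ht | ht⟩ := xd_spec hac (show 1 < D by omega)
      · have t0 : t ≠ 0 := by
          rintro rfl
          have : a ∣ 1 := ⟨_, by linarith⟩
          have := Nat.le_of_dvd one_pos this
          omega
        rcases Nat.lt_or_ge t 2 with h1 | h1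
        · have h2 : t = 1 := by omega
          rw [h2] at ht
          generalize xd D 1 a = x at *
          have hx : x < 5 := by omega
          interval_cases x <;> omega
        · have h2 : 2 * D ≤ t * D := Nat.mul_le_mul_right _ h1
          have h3 : a * xd D 1 a ≤ a * 4 := Nat.mul_le_mul_left _ (by omega)
          omega
      · have t0 : t ≠ 0 := by
          rintro rfl
          omega
        rcases Nat.lt_or_ge t 2 with h1 | h1
        · have h2 : t = 1 := by omega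
          rw [h2] at ht
          generalize xd D 1 a = x at *
          have hx : x < 5 := by omega
          interval_cases x <;> omega
        · have h2 : 2 * D ≤ t * D := Nat.mul_le_mul_right _ h1
          have h3 : a * xd D 1 a ≤ a * 4 := Nat.mul_le_mul_left _ (by omega)
          omega
    have h5 : f D (xd D 1 a) ≤ f D 5 := f_antitone (by norm_num) hx5 (two_mul_xd_le (by omega) _ _)
    have h6 : f D 5 ≤ 1 / ((5 : ℕ) : ℝ) + 2.2832 * ((5 : ℕ) : ℝ) / (D : ℝ) ^ 2 :=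
      f_le (by norm_num) (by omega)
    have h24 : (24 : ℝ) ≤ D := by linarith
    have h7 : 2.2832 * ((5 : ℕ) : ℝ) / (D : ℝ) ^ 2 ≤ 0.02 := by
      rw [div_le_iff₀ (by positivity)]
      push_cast
      nlinarith
    have h8 : (2 : ℝ) ^ (j + 1) / ((D : ℝ) - 1) ≤ 2 / 3 := by
      have e : (2 : ℝ) ^ (j + 1) = 2 * 2 ^ j := by rw [pow_succ]; ring
      rw [e, div_le_iff₀ (by linarith)]
      have : (D : ℝ) = 2 * 2 ^ j + a := by exact_mod_cast hDeq
      linarith
    norm_num at h6 h7 h8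
    linarith
  refine ⟨?_, haeq⟩
  omega

/-- (D2): powers of two and one more element. -/
theorem D_eq_of_insert {D j a : ℕ} (h : Sys D (insert a (Pw j))) (hj : 1 ≤ j) (ha : 2 ^ j < a)
    (ha' : a ≠ 2 ^ (j + 1)) : D = 2 ^ (j + 2) - 1 ∧ a = 2 ^ (j + 1) - 1 := by
  rcases Nat.lt_or_ge j 3 with h3 | h3
  · obtain ⟨hDa, hD4, ha2, h2c, hac, hC1, hCa⟩ := D2_basic h (by omega) ha ha'
    have hodd : ¬ 2 ∣ D := by
      intro h4
      have h9 : 2 ∣ Nat.gcd 2 D := Nat.dvd_gcd (dvd_refl 2) h4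
      rw [h2c] at h9
      omega
    have hj12 : j = 1 ∨ j = 2 := by omega
    rcases hj12 with rfl | rfl
    · norm_num at *
      omega
    · have hcases : (D = 13 ∧ a = 5) ∨ (D = 15 ∧ a = 5) ∨ (D = 13 ∧ a = 6) ∨
          (D = 15 ∧ a = 6) ∨ (D = 15 ∧ a = 7) := by
        norm_num at *
        omega
      rcases hcases with ⟨rfl, rfl⟩ | ⟨rfl, rfl⟩ | ⟨rfl, rfl⟩ | ⟨rfl, rfl⟩ | ⟨rfl, rfl⟩
      · exfalso
        have hx : xd 13 1 5 = 5 := xd_eq_of (by norm_num) (by norm_num) (by norm_num)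
          (Or.inr ⟨2, by norm_num⟩)
        rw [hx] at hC1
        have h6 := f_le (D := 13) (x := 5) (by norm_num) (by norm_num)
        norm_num at h6 hC1
        linarith
      · norm_num at hac
      · exfalso
        have hx1 : xd 13 6 (2 ^ 0) = 6 := xd_eq_of (by norm_num) (by norm_num) (by norm_num)
          (Or.inl ⟨0, by norm_num⟩)
        have hx2 : xd 13 6 (2 ^ 1) = 3 := xd_eq_of (by norm_num) (by norm_num) (by norm_num)
          (Or.inl ⟨0, by norm_num⟩)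
        have hx3 : xd 13 6 (2 ^ 2) = 5 := xd_eq_of (by norm_num) (by norm_num) (by norm_num)
          (Or.inr ⟨2, by norm_num⟩)
        rw [Finset.sum_range_succ, Finset.sum_range_succ, Finset.sum_range_succ,
          Finset.sum_range_zero, hx1, hx2, hx3] at hCa
        have h6 := f_le (D := 13) (x := 6) (by norm_num) (by norm_num)
        have h3 := f_le (D := 13) (x := 3) (by norm_num) (by norm_num)
        have h5 := f_le (D := 13) (x := 5) (by norm_num) (by norm_num)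
        norm_num at h6 h3 h5 hCa
        linarith
      · norm_num at hac
      · norm_num
  · exact D2_large h h3 ha ha'

end Pool.Agent.Helper27.FK
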