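import Mathlib
import Pool.Agent.Helper27.FK.Dev
import Pool.Agent.Helper47.FK.A
import Pool.Agent.Helper47.FK.D2

/-!
The parts (A) and (D), and the reduction of the theorem `T` to the claim that nothing lies
above the smallest deviant element.
-/

namespace Pool.Agent.Helper27.FK

open Finset

theorem chain_D {D j : ℕ} (h : Sys D (chain j)) (h3 : 3 ≤ (chain j).card) :
    D = 2 ^ (j + 1) - 1 := by
  rw [card_chain] at h3
  exact D_eq_of_Pw (j := j) h (by omega)

theorem Dev.eq_insert {I : Finset ℕ} {a j : ℕ} (hd : Dev I a j) (hmax : ∀ b ∈ I, b ≤ a) :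
    I = insert a (chain j) := by
  rw [← hd.below]
  ext b
  simp only [mem_insert, mem_filter]
  constructor
  · intro hb
    rcases Nat.lt_or_ge b a with h1 | h1
    · right; exact ⟨hb, h1⟩
    · left; exact le_antisymm (hmax b hb) h1
  · rintro (rfl | hb)
    · exact hd.mem
    · exact hb.1

theorem dev_D {D : ℕ} {I : Finset ℕ} {a j : ℕ} (h : Sys D I) (h3 : 3 ≤ I.card) (hd : Dev I a j)
    (hmax : ∀ b ∈ I, b ≤ a) : D = 2 ^ (j + 2) - 1 ∧ a = 2 ^ (j + 1) - 1 := by
  have hI := hd.eq_insert hmax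
  have hj : 1 ≤ j := by
    by_contra hcon
    have hj0 : j = 0 := by omega
    have h4 : I.card ≤ (chain j).card + 1 := by rw [hI]; exact Finset.card_insert_le _ _
    rw [card_chain, hj0] at h4
    omega
  have h5 : Sys D (insert a (Pw j)) := by
    have : insert a (Pw j) = I := hI.symm
    rw [this]
    exact h
  exact D_eq_of_insert h5 hj hd.lt hd.ne

/-- The theorem `T`, assuming that no element lies above the smallest deviant element. -/
theorem T_of_noAbove
    (hBC : ∀ (D : ℕ) (I : Finset ℕ) (a j : ℕ), Sys D I → 3 ≤ I.card → Dev I a j →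
      ∀ b ∈ I, b ≤ a)
    {D : ℕ} {I : Finset ℕ} (h : Sys D I) (h3 : 3 ≤ I.card) :
    ∃ k, 3 ≤ k ∧ D = 2 ^ k - 1 ∧
      (I = (range k).image (fun i => 2 ^ i) ∨
       I = insert (2 ^ (k - 1) - 1) ((range (k - 1)).image (fun i => 2 ^ i))) := by
  rcases chain_or_dev h.pos (p_eq_one h h3) with ⟨j, hj⟩ | ⟨a, j, hd⟩
  · subst hj
    have h4 := chain_D h h3
    rw [card_chain] at h3
    exact ⟨j + 1, h3, h4, Or.inl rfl⟩
  · have hmax := hBC D I a j h h3 hd
    obtain ⟨h4, h5⟩ := dev_D h h3 hd hmax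
    have hI := hd.eq_insert hmax
    have hj : 1 ≤ j := by
      by_contra hcon
      have hj0 : j = 0 := by omega
      have h4 : I.card ≤ (chain j).card + 1 := by rw [hI]; exact Finset.card_insert_le _ _
      rw [card_chain, hj0] at h4
      omega
    refine ⟨j + 2, by omega, h4, Or.inr ?_⟩
    have e : j + 2 - 1 = j + 1 := by omega
    rw [e, ← h5, hI]
    rfl

end Pool.Agent.Helper27.FK
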