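import Mathlib
import Pool.Agent.Helper27.FK.Dev

/-!
Finite check: executable bounds.
-/

namespace Pool.Agent.Helper27.FK

open Finset

/-- scaled upper bound for `f D x` (factor `10^6`) -/
def Gb (D x : ℕ) : ℕ :=
  (100 * (D * D) - 162) * (10000 * (D * D) + 22832 * (x * x)) * 1000000 /
    (1000000 * (D * D) * (D * D) * x) + 1

/-- use the bound of `x` if `x` is verified to be the distance of `a/b` -/
def Vx (D a b x : ℕ) : ℕ :=
  bif (((b * x) % D == a % D) || ((b * x + a) % D == 0)) && Nat.ble (2 * x) D && Nat.ble 1 x then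
    Gb D x else 1000000

def Xc (D r : ℕ) : ℕ := bif Nat.ble (2 * r) D then r else D - r

def Vb (D e a b : ℕ) : ℕ := Vx D a b (Xc D (a * b ^ e % D))

theorem sin_le_quint {u : ℝ} (hu : 0 ≤ u) : Real.sin u ≤ u - u ^ 3 / 6 + u ^ 5 / 120 := by
  have key : ∀ (f f' : ℝ → ℝ), (∀ x, HasDerivAt f (f' x) x) → f 0 = 0 →
      (∀ x, 0 ≤ x → 0 ≤ f' x) → ∀ x, 0 ≤ x → 0 ≤ f x := by
    intro f f' hf h0 hpos x hx
    have hmono : MonotoneOn f (Set.Ici 0) := by
      apply monotoneOn_of_deriv_nonneg (convex_Ici 0)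
      · exact fun y _ => (hf y).continuousAt.continuousWithinAt
      · exact fun y _ => (hf y).differentiableAt.differentiableWithinAt
      · intro y hy
        rw [(hf y).deriv]
        rw [interior_Ici] at hy
        exact hpos y (le_of_lt hy)
    have := hmono (Set.mem_Ici.2 le_rfl) (Set.mem_Ici.2 hx) hx
    rwa [h0] at this
  have c2 : ∀ x : ℝ, 0 ≤ x → 0 ≤ Real.cos x - (1 - x ^ 2 / 2) := by
    intro x _
    have := Real.one_sub_sq_div_two_le_cos (x := x)
    linarith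
  have s3 : ∀ x : ℝ, 0 ≤ x → 0 ≤ Real.sin x - (x - x ^ 3 / 6) := by
    apply key _ (fun x => Real.cos x - (1 - x ^ 2 / 2))
    · intro x
      have h1 := (Real.hasDerivAt_sin x)
      have h2 : HasDerivAt (fun y : ℝ => y - y ^ 3 / 6) (1 - x ^ 2 / 2) x := by
        have h3 : HasDerivAt (fun y : ℝ => y - y ^ 3 / 6) _ x :=
          (hasDerivAt_id' x).sub ((hasDerivAt_pow 3 x).div_const 6)
        exact h3.congr_deriv (by norm_num; ring)
      exact h1.sub h2
    · simp
    · exact c2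
  have c4 : ∀ x : ℝ, 0 ≤ x → 0 ≤ (1 - x ^ 2 / 2 + x ^ 4 / 24) - Real.cos x := by
    apply key _ (fun x => Real.sin x - (x - x ^ 3 / 6))
    · intro x
      have h1 := (Real.hasDerivAt_cos x)
      have h2 : HasDerivAt (fun y : ℝ => 1 - y ^ 2 / 2 + y ^ 4 / 24) (-(x - x ^ 3 / 6)) x := by
        have h3 : HasDerivAt (fun y : ℝ => 1 - y ^ 2 / 2 + y ^ 4 / 24) _ x :=
          ((hasDerivAt_const x (1 : ℝ)).sub ((hasDerivAt_pow 2 x).div_const 2)).add
          ((hasDerivAt_pow 4 x).div_const 24)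
        exact h3.congr_deriv (by norm_num; ring)
      exact (h2.sub h1).congr_deriv (by ring)
    · simp
    · exact s3
  have s5 : ∀ x : ℝ, 0 ≤ x → 0 ≤ (x - x ^ 3 / 6 + x ^ 5 / 120) - Real.sin x := by
    apply key _ (fun x => (1 - x ^ 2 / 2 + x ^ 4 / 24) - Real.cos x)
    · intro x
      have h1 := (Real.hasDerivAt_sin x)
      have h2 : HasDerivAt (fun y : ℝ => y - y ^ 3 / 6 + y ^ 5 / 120)
          (1 - x ^ 2 / 2 + x ^ 4 / 24) x := by
        have h3 : HasDerivAt (fun y : ℝ => y - y ^ 3 / 6 + y ^ 5 / 120) _ x :=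
          ((hasDerivAt_id' x).sub ((hasDerivAt_pow 3 x).div_const 6)).add
          ((hasDerivAt_pow 5 x).div_const 120)
        exact h3.congr_deriv (by norm_num; ring)
      exact h2.sub h1
    · simp
    · exact c4
  have := s5 u hu
  linarith

/-- A slightly better rational bound. -/
theorem f_le2 {D x : ℕ} (hD : 6 ≤ D) (hx : 0 < x) (hxD : 2 * x ≤ D) :
    f D x ≤ (1 - 1.62 / (D : ℝ) ^ 2) * (1 / x + 2.2832 * x / (D : ℝ) ^ 2) := by
  have hD6 : (6 : ℝ) ≤ D := by exact_mod_cast hD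
  have hD' : (0 : ℝ) < D := by linarith
  have hx' : (0 : ℝ) < x := by exact_mod_cast hx
  have hs := sin_pos_of (D := D) (x := x) hx (by omega)
  set y : ℝ := x / D with hy
  have hy0 : 0 < y := by positivity
  have hy2 : y ≤ 1 / 2 := by
    rw [hy, div_le_iff₀ hD']
    have : (2 : ℝ) * x ≤ D := by exact_mod_cast hxD
    linarith
  have hb := sin_bound hy0.le hy2
  have e : Real.pi * y = Real.pi * x / D := by rw [hy]; ring
  rw [e] at hb
  have hpi := Real.pi_pos
  set u : ℝ := Real.pi / D with hu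
  have hu0 : 0 < u := by positivity
  have h1 := sin_le_quint hu0.le
  have hp1 := Real.pi_gt_d4
  have hp2 := Real.pi_lt_d4
  -- factor
  have hfac : u - u ^ 3 / 6 + u ^ 5 / 120 ≤ (1 - 1.62 / (D : ℝ) ^ 2) * u := by
    have hsq1 : 9.869 ≤ Real.pi ^ 2 := by nlinarith
    have hsq2 : Real.pi ^ 2 ≤ 9.8697 := by nlinarith
    have e2 : u ^ 2 = Real.pi ^ 2 / (D : ℝ) ^ 2 := by rw [hu]; ring
    have hDsq : (36 : ℝ) ≤ (D : ℝ) ^ 2 := by nlinarith
    have h3 : u ^ 2 ≤ 0.2742 := by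
      rw [e2, div_le_iff₀ (by positivity)]
      nlinarith
    have h4 : 1.62 / (D : ℝ) ^ 2 ≤ u ^ 2 * 0.1642 := by
      rw [e2, div_mul_eq_mul_div]
      apply div_le_div_of_nonneg_right _ (by positivity)
      linarith
    have e3 : u - u ^ 3 / 6 + u ^ 5 / 120 = u * (1 - u ^ 2 * (1 / 6 - u ^ 2 / 120)) := by ring
    rw [e3, mul_comm]
    apply mul_le_mul_of_nonneg_right _ hu0.le
    have h5 : u ^ 2 * 0.1642 ≤ u ^ 2 * (1 / 6 - u ^ 2 / 120) := by
      apply mul_le_mul_of_nonneg_left _ (by positivity)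
      linarith
    linarith
  have hfac0 : 0 ≤ 1 - 1.62 / (D : ℝ) ^ 2 := by
    have hDsq : (36 : ℝ) ≤ (D : ℝ) ^ 2 := by nlinarith
    have : 1.62 / (D : ℝ) ^ 2 ≤ 1 := by
      rw [div_le_iff₀ (by positivity)]
      linarith
    linarith
  unfold f
  rw [div_le_iff₀ hs]
  refine (h1.trans hfac).trans ?_
  rw [mul_assoc]
  apply mul_le_mul_of_nonneg_left _ hfac0
  have e2 : (1 / (x : ℝ) + 2.2832 * x / (D : ℝ) ^ 2) = (1 / x) * (1 + 2.2832 * y ^ 2) := by
    rw [hy]; field_simp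
  have e3 : u = (1 / x) * (Real.pi * x / D) := by rw [hu]; field_simp
  rw [e2, mul_assoc, e3]
  apply mul_le_mul_of_nonneg_left _ (by positivity)
  linarith

lemma div_lt_div_succ (N M : ℕ) (hM : 0 < M) : (N : ℝ) / M < ((N / M : ℕ) : ℝ) + 1 := by
  have hMr : (0 : ℝ) < M := by exact_mod_cast hM
  rw [div_lt_iff₀ hMr]
  have h1 := Nat.div_add_mod N M
  have h2 := Nat.mod_lt N hM
  have h3 : N < (N / M + 1) * M := by
    calc N = M * (N / M) + N % M := h1.symm
      _ < M * (N / M) + M := by omega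
      _ = (N / M + 1) * M := by ring
  exact_mod_cast h3

theorem f_le_Gb {D x : ℕ} (hD : 6 ≤ D) (hx : 0 < x) (hxD : 2 * x ≤ D) :
    1000000 * f D x ≤ Gb D x := by
  have h1 := f_le2 hD hx hxD
  have hD6 : (6 : ℝ) ≤ D := by exact_mod_cast hD
  have hD' : (0 : ℝ) < D := by linarith
  have hx' : (0 : ℝ) < x := by exact_mod_cast hx
  have h5 : 162 ≤ 100 * (D * D) := by nlinarith
  set N : ℕ := (100 * (D * D) - 162) * (10000 * (D * D) + 22832 * (x * x)) * 1000000 with hN
  set M : ℕ := 1000000 * (D * D) * (D * D) * x with hM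
  have hMpos : 0 < M := by
    have : 0 < D := by omega
    positivity
  have h4 := div_lt_div_succ N M hMpos
  have hGb : (Gb D x : ℝ) = ((N / M : ℕ) + 1) := by
    unfold Gb
    rw [← hN, ← hM]
    push_cast
    rfl
  rw [hGb]
  refine le_trans ?_ h4.le
  have hNr : (N : ℝ) = (100 * (D * D) - 162) * (10000 * (D * D) + 22832 * (x * x)) * 1000000 := by
    rw [hN, Nat.cast_mul, Nat.cast_mul, Nat.cast_sub h5]
    push_cast
    ring
  have hMr' : (M : ℝ) = 1000000 * (D * D) * (D * D) * x := by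
    rw [hM]; push_cast; ring
  have e : (N : ℝ) / M = 1000000 *
      ((1 - 1.62 / (D : ℝ) ^ 2) * (1 / x + 2.2832 * x / (D : ℝ) ^ 2)) := by
    rw [hNr, hMr']
    field_simp
    ring
  rw [e]
  linarith

theorem f_le_Vx {D a b : ℕ} (hD : 6 ≤ D) (ha : a.Coprime D) (hb : b.Coprime D) (x : ℕ) :
    1000000 * f D (xd D a b) ≤ Vx D a b x := by
  unfold Vx
  cases hc : (((b * x) % D == a % D) || ((b * x + a) % D == 0)) && Nat.ble (2 * x) D &&
    Nat.ble 1 x
  · -- trivial bound
    have h1 : f D (xd D a b) ≤ f D 1 :=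
      f_antitone one_pos (xd_pos (by omega) ha hb) (two_mul_xd_le (by omega) _ _)
    rw [f_one (by omega)] at h1
    simp only [cond_false]
    push_cast
    linarith
  · simp only [cond_true]
    simp only [Bool.and_eq_true, Bool.or_eq_true, beq_iff_eq, Nat.ble_eq] at hc
    obtain ⟨⟨h1, h2⟩, h3⟩ := hc
    have hx : xd D a b = x := by
      apply xd_eq_of (by omega) hb h2
      rcases h1 with h1 | h1
      · left
        have h4 : (b * x) ≡ a [MOD D] := h1
        have h5 := (Nat.modEq_iff_dvd.1 h4.symm)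
        push_cast at h5
        exact h5
      · right
        have h4 : D ∣ b * x + a := Nat.dvd_of_mod_eq_zero h1
        exact_mod_cast h4
    rw [hx]
    exact f_le_Gb hD h3 h2

theorem f_le_Vb {D a b : ℕ} (hD : 6 ≤ D) (ha : a.Coprime D) (hb : b.Coprime D) (e : ℕ) :
    1000000 * f D (xd D a b) ≤ Vb D e a b := f_le_Vx hD ha hb _

end Pool.Agent.Helper27.FK
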