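import Mathlib
import Pool.Agent.Helper47.FK.Chk

/-!
Finite check: the checker and its soundness.
-/

namespace Pool.Agent.Helper27.FK

open Finset

/-- weight of `b` -/
def wb (D e a α β b : ℕ) : ℕ :=
  bif β == 0 then α * Vb D e 1 b else α * Vb D e 1 b + β * Vb D e a b

lemma wb_eq (D e a α β b : ℕ) : wb D e a α β b = α * Vb D e 1 b + β * Vb D e a b := by
  unfold wb
  cases h : β == 0
  · simp
  · have : β = 0 := by simpa using h
    subst this
    simp

/-- positive parts of `w(b) - lam b` over `a < b ≤ n` -/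
def posSum (D e a α β lam : ℕ) : ℕ → ℕ
  | 0 => 0
  | n + 1 => bif Nat.ble (n + 1) a then 0 else posSum D e a α β lam n +
      (bif Nat.gcd (n + 1) D == 1 then wb D e a α β (n + 1) - lam * (n + 1) else 0)

/-- positive parts of `V(1,b) - lam b` over `b ≤ n` -/
def pos1 (D e lam : ℕ) : ℕ → ℕ
  | 0 => 0
  | n + 1 => pos1 D e lam n +
      (bif Nat.gcd (n + 1) D == 1 then Vb D e 1 (n + 1) - lam * (n + 1) else 0)

def chS (D e a : ℕ) : ℕ → ℕ
  | 0 => Vb D e a 1
  | i + 1 => chS D e a i + Vb D e a (2 ^ (i + 1))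

def chS1 (D e : ℕ) : ℕ → ℕ
  | 0 => 0
  | i + 1 => chS1 D e i + Vb D e 1 (2 ^ (i + 1))

def lp (D e a j α β lam R : ℕ) : Bool :=
  Nat.blt (α * (chS1 D e j + Vb D e 1 a) + β * chS D e a j + lam * R +
    posSum D e a α β lam R) ((α + β) * 1000000)

def lp1 (D e a j lam R : ℕ) : Bool :=
  Nat.blt (chS1 D e j + Vb D e 1 a + lam * R + (pos1 D e lam R - pos1 D e lam a)) 1000000

def sumV (D e c : ℕ) : List ℕ → ℕ
  | [] => 0
  | b :: L => (bif b == c then 0 else Vb D e c b) + sumV D e c L

def leaf (D e : ℕ) (L : List ℕ) : Bool :=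
  L.any (fun c => Nat.blt (sumV D e c L) 1000000)

def enumJ (D e : ℕ) (base : List ℕ) : ℕ → List ℕ → ℕ → ℕ → Bool
  | 0, _, _, _ => false
  | k + 1, cur, R, b =>
    bif Nat.blt R b then (cur.isEmpty || leaf D e (cur ++ base))
    else enumJ D e base k cur R (b + 1) &&
      (bif Nat.gcd b D == 1 then enumJ D e base k (b :: cur) (R - b) (b + 1) else true)

/-- some inequality fails -/
def BadSet (D e : ℕ) (S : Finset ℕ) : Prop :=
  ∃ c ∈ S, ∑ b ∈ S.erase c, Vb D e c b < 1000000

lemma sumV_eq (D e c : ℕ) (L : List ℕ) (hL : L.Nodup) :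
    sumV D e c L = ∑ b ∈ L.toFinset.erase c, Vb D e c b := by
  induction L with
  | nil => simp [sumV]
  | cons b L ih =>
    rw [List.nodup_cons] at hL
    have ih := ih hL.2
    have hb : b ∉ L.toFinset := by simpa using hL.1
    unfold sumV
    rw [ih, List.toFinset_cons]
    by_cases hbc : b = c
    · subst hbc
      simp only [beq_self_eq_true, cond_true, zero_add]
      rw [Finset.erase_insert hb, Finset.erase_eq_of_notMem hb]
    · have : (b == c) = false := by simpa using hbc
      rw [this, cond_false, Finset.erase_insert_of_ne hbc, Finset.sum_insert]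
      exact fun h => hb (Finset.mem_of_mem_erase h)

lemma leaf_bad {D e : ℕ} {L : List ℕ} (hL : L.Nodup) (h : leaf D e L = true) :
    BadSet D e L.toFinset := by
  unfold leaf at h
  rw [List.any_eq_true] at h
  obtain ⟨c, hc, h2⟩ := h
  rw [Nat.blt_eq, sumV_eq D e c L hL] at h2
  exact ⟨c, by simpa using hc, h2⟩

lemma enumJ_sound {D e : ℕ} {base : List ℕ} : ∀ (k : ℕ) (cur : List ℕ) (R b : ℕ),
    enumJ D e base k cur R b = true → (cur ++ base).Nodup → (∀ x ∈ cur ++ base, x < b) →
    ∀ J : Finset ℕ, (∀ x ∈ J, b ≤ x ∧ Nat.Coprime x D) → ∑ x ∈ J, x ≤ R →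
    (J = ∅ ∧ cur = []) ∨ BadSet D e (J ∪ (cur ++ base).toFinset) := by
  intro k
  induction k with
  | zero => intro cur R b h; simp [enumJ] at h
  | succ k ih =>
    intro cur R b h hnd hlt J hJ hsum
    unfold enumJ at h
    cases hR : Nat.blt R b
    · rw [hR, cond_false, Bool.and_eq_true] at h
      obtain ⟨h1, h2⟩ := h
      by_cases hbJ : b ∈ J
      · have hg : Nat.gcd b D = 1 := (hJ b hbJ).2
        have hg' : (Nat.gcd b D == 1) = true := by simpa using hg
        rw [hg', cond_true] at h2
        have hbn : b ∉ cur ++ base := fun hb => lt_irrefl _ (hlt b hb)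
        have hsum' : ∑ x ∈ J.erase b, x + b = ∑ x ∈ J, x := Finset.sum_erase_add _ _ hbJ
        rcases ih (b :: cur) (R - b) (b + 1) h2
          (by rw [List.cons_append, List.nodup_cons]; exact ⟨hbn, hnd⟩)
          (by
            intro x hx
            rw [List.cons_append, List.mem_cons] at hx
            rcases hx with rfl | hx
            · omega
            · have := hlt x hx; omega)
          (J.erase b)
          (by
            intro x hx
            have h3 := Finset.ne_of_mem_erase hx
            have h4 := hJ x (Finset.mem_of_mem_erase hx)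
            exact ⟨by omega, h4.2⟩)
          (by omega) with h5 | h5
        · exact absurd h5.2 (by simp)
        · right
          have e : J ∪ (cur ++ base).toFinset = J.erase b ∪ (b :: cur ++ base).toFinset := by
            ext x
            simp only [mem_union, mem_erase, List.cons_append, List.toFinset_cons, mem_insert]
            constructor
            · rintro (hx | hx)
              · by_cases hxb : x = b
                · right; left; exact hxb
                · left; exact ⟨hxb, hx⟩
              · right; right; exact hx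
            · rintro (hx | hx | hx)
              · left; exact hx.2
              · left; rw [hx]; exact hbJ
              · right; exact hx
          rw [e]
          exact h5
      · exact ih cur R (b + 1) h1 hnd (fun x hx => by have := hlt x hx; omega) J
          (fun x hx => by
            have h3 := hJ x hx
            refine ⟨?_, h3.2⟩
            rcases Nat.lt_or_ge b x with h4 | h4
            · omega
            · exact absurd (by rw [le_antisymm h3.1 h4]; exact hx) hbJ) hsum
    · rw [hR, cond_true] at h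
      have hJe : J = ∅ := by
        rw [Finset.eq_empty_iff_forall_notMem]
        intro x hx
        have h3 := (hJ x hx).1
        have h4 : x ≤ ∑ y ∈ J, y :=
          Finset.single_le_sum (f := fun y => y) (fun _ _ => Nat.zero_le _) hx
        rw [Nat.blt_eq] at hR
        omega
      rw [Bool.or_eq_true] at h
      rcases h with h | h
      · left
        exact ⟨hJe, by simpa using h⟩
      · right
        rw [hJe, Finset.empty_union]
        exact leaf_bad hnd h

lemma posSum_ge {D e a α β lam : ℕ} : ∀ (n : ℕ) (J : Finset ℕ),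
    (∀ x ∈ J, a < x ∧ x ≤ n ∧ Nat.Coprime x D) →
    ∑ x ∈ J, wb D e a α β x ≤ lam * ∑ x ∈ J, x + posSum D e a α β lam n := by
  intro n
  induction n with
  | zero =>
    intro J hJ
    have : J = ∅ := by
      rw [Finset.eq_empty_iff_forall_notMem]
      intro x hx
      have := hJ x hx
      omega
    subst this
    simp
  | succ n ih =>
    intro J hJ
    unfold posSum
    cases hna : Nat.ble (n + 1) a
    · rw [cond_false]
      by_cases hm : n + 1 ∈ J
      · have h1 := ih (J.erase (n + 1)) (by
          intro x hx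
          have h3 := Finset.ne_of_mem_erase hx
          have h4 := hJ x (Finset.mem_of_mem_erase hx)
          exact ⟨h4.1, by omega, h4.2.2⟩)
        have hg : Nat.gcd (n + 1) D = 1 := (hJ _ hm).2.2
        have hg' : (Nat.gcd (n + 1) D == 1) = true := by simpa using hg
        rw [hg', cond_true]
        rw [← Finset.sum_erase_add _ _ hm, ← Finset.sum_erase_add _ _ hm, mul_add]
        omega
      · have h1 := ih J (by
          intro x hx
          have h4 := hJ x hx
          have h5 : x ≠ n + 1 := fun h => hm (h ▸ hx)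
          exact ⟨h4.1, by omega, h4.2.2⟩)
        omega
    · have : J = ∅ := by
        rw [Finset.eq_empty_iff_forall_notMem]
        intro x hx
        have h2 := hJ x hx
        rw [Nat.ble_eq] at hna
        omega
      subst this
      simp

lemma pos1_ge {D e a lam : ℕ} (n : ℕ) (hn : a ≤ n) : ∀ (J : Finset ℕ),
    (∀ x ∈ J, a < x ∧ x ≤ n ∧ Nat.Coprime x D) →
    ∑ x ∈ J, Vb D e 1 x + pos1 D e lam a ≤ lam * ∑ x ∈ J, x + pos1 D e lam n := by
  induction n, hn using Nat.le_induction with
  | base =>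
    intro J hJ
    have : J = ∅ := by
      rw [Finset.eq_empty_iff_forall_notMem]
      intro x hx
      have := hJ x hx
      omega
    subst this
    simp
  | succ n hn ih =>
    intro J hJ
    have e1 : pos1 D e lam (n + 1) = pos1 D e lam n +
      (bif Nat.gcd (n + 1) D == 1 then Vb D e 1 (n + 1) - lam * (n + 1) else 0) := rfl
    rw [e1]
    by_cases hm : n + 1 ∈ J
    · have h1 := ih (J.erase (n + 1)) (by
        intro x hx
        have h3 := Finset.ne_of_mem_erase hx
        have h4 := hJ x (Finset.mem_of_mem_erase hx)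
        exact ⟨h4.1, by omega, h4.2.2⟩)
      have hg : Nat.gcd (n + 1) D = 1 := (hJ _ hm).2.2
      have hg' : (Nat.gcd (n + 1) D == 1) = true := by simpa using hg
      rw [hg', cond_true]
      rw [← Finset.sum_erase_add _ _ hm, ← Finset.sum_erase_add _ _ hm, mul_add]
      omega
    · have h1 := ih J (by
        intro x hx
        have h4 := hJ x hx
        have h5 : x ≠ n + 1 := fun h => hm (h ▸ hx)
        exact ⟨h4.1, by omega, h4.2.2⟩)
      omega

lemma chS_eq (D e a j : ℕ) : ∑ b ∈ chain j, Vb D e a b = chS D e a j := by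
  rw [sum_chain]
  induction j with
  | zero => simp [chS]
  | succ n ih => rw [Finset.sum_range_succ, ih]; rfl

lemma chS1_eq (D e j : ℕ) : ∑ b ∈ chain j, Vb D e 1 b = Vb D e 1 1 + chS1 D e j := by
  rw [sum_chain]
  induction j with
  | zero => simp [chS1]
  | succ n ih =>
    rw [Finset.sum_range_succ, ih]
    show _ = Vb D e 1 1 + (chS1 D e n + Vb D e 1 (2 ^ (n + 1)))
    rw [add_assoc]

/-- natural number form of `C(c)` -/
lemma Sys.C_nat {D : ℕ} {I : Finset ℕ} (h : Sys D I) (hD : 6 ≤ D) (e : ℕ) {c : ℕ}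
    (hc : c ∈ I) : 1000000 ≤ ∑ b ∈ I.erase c, Vb D e c b := by
  have h1 := h.C c hc
  have h2 : (1000000 : ℝ) ≤ ∑ b ∈ I.erase c, ((Vb D e c b : ℕ) : ℝ) := by
    calc (1000000 : ℝ) ≤ 1000000 * ∑ b ∈ I.erase c, f D (xd D c b) := by linarith
      _ = ∑ b ∈ I.erase c, 1000000 * f D (xd D c b) := by rw [Finset.mul_sum]
      _ ≤ _ := Finset.sum_le_sum fun b hb =>
          f_le_Vb hD (h.cop c hc) (h.cop b (Finset.mem_of_mem_erase hb)) e
  have h3 : (1000000 : ℝ) ≤ ((∑ b ∈ I.erase c, Vb D e c b : ℕ) : ℝ) := by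
    push_cast
    exact h2
  exact_mod_cast h3

/-- the decomposition of `I` at the smallest deviant element -/
lemma Dev.decomp {I : Finset ℕ} {a j : ℕ} (hd : Dev I a j) {M : Type*} [AddCommMonoid M]
    (g : ℕ → M) : ∑ b ∈ I, g b = ∑ b ∈ chain j, g b + g a + ∑ b ∈ I.filter (a < ·), g b := by
  have h1 : I = (I.filter (· < a)) ∪ (insert a (I.filter (a < ·))) := by
    ext x
    simp only [mem_union, mem_filter, mem_insert]
    constructor
    · intro hx
      rcases lt_trichotomy x a with h | h | h
      · left; exact ⟨hx, h⟩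
      · right; left; exact h
      · right; right; exact ⟨hx, h⟩
    · rintro (hx | rfl | hx)
      · exact hx.1
      · exact hd.mem
      · exact hx.1
  have hdisj : Disjoint (I.filter (· < a)) (insert a (I.filter (a < ·))) := by
    rw [Finset.disjoint_left]
    intro x hx hx'
    simp only [mem_filter, mem_insert] at hx hx'
    omega
  have hna : a ∉ I.filter (a < ·) := by simp
  conv_lhs => rw [h1]
  rw [Finset.sum_union hdisj, Finset.sum_insert hna, hd.below]
  rw [add_assoc]

/-- the facts used by all the checks -/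
structure Setup (D e : ℕ) (I : Finset ℕ) (a j R : ℕ) : Prop where
  c1 : 1000000 ≤ chS1 D e j + Vb D e 1 a + ∑ b ∈ I.filter (a < ·), Vb D e 1 b
  ca : 1000000 ≤ chS D e a j + ∑ b ∈ I.filter (a < ·), Vb D e a b
  sum : ∑ b ∈ I.filter (a < ·), b ≤ R
  mem : ∀ x ∈ I.filter (a < ·), a < x ∧ x ≤ R ∧ Nat.Coprime x D

lemma Sys.setup {D : ℕ} {I : Finset ℕ} (h : Sys D I) (hD : 6 ≤ D) (e : ℕ) {a j : ℕ}
    (h1 : 1 ∈ I) (hd : Dev I a j) : Setup D e I a j (D - a - (2 ^ (j + 1) - 1)) := by
  have hc1 := h.C_nat hD e h1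
  have hca := h.C_nat hD e hd.mem
  have e1 : Vb D e 1 1 + ∑ b ∈ I.erase 1, Vb D e 1 b = ∑ b ∈ I, Vb D e 1 b :=
    Finset.add_sum_erase _ _ h1
  have ea : Vb D e a a + ∑ b ∈ I.erase a, Vb D e a b = ∑ b ∈ I, Vb D e a b :=
    Finset.add_sum_erase _ _ hd.mem
  rw [hd.decomp, chS1_eq] at e1
  rw [hd.decomp, chS_eq] at ea
  have hs := h.sum_le
  rw [hd.decomp, sum_chain_id] at hs
  have hsum : ∑ b ∈ I.filter (a < ·), b ≤ D - a - (2 ^ (j + 1) - 1) := by omega
  refine ⟨by omega, by omega, hsum, ?_⟩
  intro x hx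
  have hx' := Finset.mem_filter.1 hx
  refine ⟨hx'.2, ?_, h.cop x hx'.1⟩
  exact (Finset.single_le_sum (f := fun y => y) (fun _ _ => Nat.zero_le _) hx).trans hsum

lemma lp_sound {D e a j α β lam R : ℕ} {I : Finset ℕ} (hs : Setup D e I a j R)
    (h : lp D e a j α β lam R = true) : False := by
  unfold lp at h
  rw [Nat.blt_eq] at h
  have h1 := posSum_ge (D := D) (e := e) (a := a) (α := α) (β := β) (lam := lam) R _ hs.mem
  simp only [wb_eq] at h1
  rw [Finset.sum_add_distrib, ← Finset.mul_sum, ← Finset.mul_sum] at h1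
  have h2 := Nat.mul_le_mul_left α hs.c1
  have h3 := Nat.mul_le_mul_left β hs.ca
  have h4 := Nat.mul_le_mul_left lam hs.sum
  rw [mul_add] at h2 h3
  rw [add_mul] at h
  omega

lemma lp1_sound {D e a j lam R : ℕ} {I : Finset ℕ} (hs : Setup D e I a j R) (haR : a ≤ R)
    (h : lp1 D e a j lam R = true) : False := by
  unfold lp1 at h
  rw [Nat.blt_eq] at h
  have h1 := pos1_ge (D := D) (e := e) (a := a) (lam := lam) R haR _ hs.mem
  have h2 := hs.c1
  have h4 := Nat.mul_le_mul_left lam hs.sum
  omega

/-- the base list `[a, 1, 2, …, 2^j]` -/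
def baseL (a j : ℕ) : List ℕ := a :: (List.range (j + 1)).map (fun i => 2 ^ i)

lemma enum_sound {D e a j R : ℕ} {I : Finset ℕ} (h : Sys D I) (hD : 6 ≤ D)
    (hd : Dev I a j) (hs : Setup D e I a j R) (hne : (I.filter (a < ·)).Nonempty)
    (hc : enumJ D e (baseL a j) (R + 2 - a) [] R (a + 1) = true) : False := by
  have hbase : (baseL a j).toFinset = insert a (chain j) := by
    unfold baseL chain
    ext x
    simp
  have hnd : (baseL a j).Nodup := by
    unfold baseL
    rw [List.nodup_cons]
    constructor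
    · intro hx
      rw [List.mem_map] at hx
      obtain ⟨i, hi, h2⟩ := hx
      rw [List.mem_range] at hi
      have h3 : 2 ^ i ≤ 2 ^ j := Nat.pow_le_pow_right (by norm_num) (by omega)
      have := hd.lt
      omega
    · apply List.Nodup.map (Nat.pow_right_injective le_rfl) List.nodup_range
  have hlt : ∀ x ∈ baseL a j, x < a + 1 := by
    intro x hx
    have h2 : x ∈ (baseL a j).toFinset := by simpa using hx
    rw [hbase, mem_insert, mem_chain] at h2
    rcases h2 with rfl | ⟨i, hi, rfl⟩
    · omega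
    · have h3 : 2 ^ i ≤ 2 ^ j := Nat.pow_le_pow_right (by norm_num) (by omega)
      have := hd.lt
      omega
  rcases enumJ_sound (R + 2 - a) [] R (a + 1) hc (by simpa using hnd) (by simpa using hlt)
    (I.filter (a < ·)) (fun x hx => ⟨(hs.mem x hx).1, (hs.mem x hx).2.2⟩) hs.sum with h2 | h2
  · rw [h2.1] at hne
    simp at hne
  · have e1 : I.filter (a < ·) ∪ ([] ++ baseL a j).toFinset = I := by
      rw [List.nil_append, hbase, ← hd.below]
      ext x
      simp only [mem_union, mem_filter, mem_insert]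
      constructor
      · rintro (hx | rfl | hx)
        · exact hx.1
        · exact hd.mem
        · exact hx.1
      · intro hx
        rcases lt_trichotomy x a with h3 | h3 | h3
        · right; right; exact ⟨hx, h3⟩
        · right; left; exact h3
        · left; exact ⟨hx, h3⟩
    rw [e1] at h2
    obtain ⟨c, hc1, hc2⟩ := h2
    have := h.C_nat hD e hc1
    omega

def lamk (D α k : ℕ) : ℕ := α * (1000000 * (10 + k) / (10 * D))

def jOk (D e a j : ℕ) : Bool :=
  Nat.ble a (2 ^ j) || (a == 2 ^ (j + 1)) || Nat.blt D (2 * a + 2 ^ (j + 1)) ||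
  (!(j == 0) && (D % 2 == 0)) ||
  lp1 D e a j (lamk D 1 0) (D - a - (2 ^ (j + 1) - 1)) ||
  lp D e a j 2 1 (lamk D 2 0) (D - a - (2 ^ (j + 1) - 1)) ||
  lp D e a j 2 1 (lamk D 2 1) (D - a - (2 ^ (j + 1) - 1)) ||
  lp D e a j 2 1 (lamk D 2 2) (D - a - (2 ^ (j + 1) - 1)) ||
  lp D e a j 2 1 (lamk D 2 3) (D - a - (2 ^ (j + 1) - 1)) ||
  lp D e a j 1 1 (lamk D 1 2) (D - a - (2 ^ (j + 1) - 1)) ||
  lp D e a j 1 1 (lamk D 1 3) (D - a - (2 ^ (j + 1) - 1)) ||
  lp D e a j 1 1 (lamk D 1 4) (D - a - (2 ^ (j + 1) - 1)) ||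
  lp D e a j 1 2 (lamk D 1 5) (D - a - (2 ^ (j + 1) - 1)) ||
  enumJ D e (baseL a j) (D - a - (2 ^ (j + 1) - 1) + 2 - a) [] (D - a - (2 ^ (j + 1) - 1))
    (a + 1)

def phiC (D : ℕ) : ℕ → ℕ
  | 0 => 0
  | n + 1 => phiC D n + (bif Nat.gcd (n + 1) D == 1 then 1 else 0)

def allJ (D e a : ℕ) : ℕ → Bool
  | 0 => jOk D e a 0
  | i + 1 => allJ D e a i && jOk D e a (i + 1)

def allA (D e : ℕ) : ℕ → Bool
  | 0 => true
  | n + 1 => allA D e n &&
      (bif Nat.ble (n + 1) 2 || !(Nat.gcd (n + 1) D == 1) then true else allJ D e (n + 1) 6)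

def allD (lo : ℕ) : ℕ → Bool
  | 0 => true
  | n + 1 => allD lo n && allA (lo + n) (phiC (lo + n) (lo + n) - 1) ((lo + n) / 2)

lemma jOk_sound {D e a j : ℕ} {I : Finset ℕ} (h : Sys D I) (hD : 6 ≤ D) (h1 : 1 ∈ I)
    (hd : Dev I a j) {b : ℕ} (hb : b ∈ I) (hab : a < b) (hc : jOk D e a j = true) : False := by
  have hs := h.setup hD e h1 hd
  have hbJ : b ∈ I.filter (a < ·) := Finset.mem_filter.2 ⟨hb, hab⟩
  have hbR := (hs.mem b hbJ).2.1
  unfold jOk at hc
  simp only [Bool.or_eq_true] at hc
  rcases hc with ((((((((((((h2 | h2) | h2) | h2) | h2) | h2) | h2) | h2) | h2) | h2) | h2) |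
    h2) | h2) | h2
  · rw [Nat.ble_eq] at h2
    have := hd.lt
    omega
  · exact hd.ne (by simpa using h2)
  · rw [Nat.blt_eq] at h2
    omega
  · rw [Bool.and_eq_true] at h2
    obtain ⟨h3, h4⟩ := h2
    have hj : j ≠ 0 := by simpa using h3
    have h5 : D % 2 = 0 := by simpa using h4
    have h6 : 2 ^ 1 ∈ I := hd.chain_subset (by omega)
    have h7 := h.cop _ h6
    have h8 : 2 ∣ Nat.gcd (2 ^ 1) D := Nat.dvd_gcd (by norm_num) (Nat.dvd_of_mod_eq_zero h5)
    rw [h7] at h8
    omega
  · exact lp1_sound hs (by omega) h2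
  all_goals first
    | exact lp_sound hs h2
    | exact enum_sound h hD hd hs ⟨b, hbJ⟩ h2

lemma allJ_sound {D e a n : ℕ} (h : allJ D e a n = true) : ∀ j ≤ n, jOk D e a j = true := by
  induction n with
  | zero =>
    intro j hj
    obtain rfl : j = 0 := by omega
    exact h
  | succ n ih =>
    intro j hj
    unfold allJ at h
    rw [Bool.and_eq_true] at h
    rcases Nat.lt_or_ge n j with h1 | h1
    · obtain rfl : j = n + 1 := by omega
      exact h.2
    · exact ih h.1 j h1

lemma allA_sound {D e n : ℕ} (h : allA D e n = true) :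
    ∀ a, 3 ≤ a → a ≤ n → a.Coprime D → ∀ j ≤ 6, jOk D e a j = true := by
  induction n with
  | zero => intro a h3 hn; omega
  | succ n ih =>
    intro a h3 hn hcop j hj
    unfold allA at h
    rw [Bool.and_eq_true] at h
    rcases Nat.lt_or_ge n a with h1 | h1
    · obtain rfl : a = n + 1 := by omega
      have h4 := h.2
      have h5 : (Nat.ble (n + 1) 2 || !(Nat.gcd (n + 1) D == 1)) = false := by
        have h6 : Nat.gcd (n + 1) D = 1 := hcop
        rw [h6]
        have h7 : Nat.ble (n + 1) 2 = false := by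
          rw [Bool.eq_false_iff]
          intro h8
          rw [Nat.ble_eq] at h8
          omega
        rw [h7]
        rfl
      rw [h5, cond_false] at h4
      exact allJ_sound h4 j hj
    · exact ih h.1 a h3 h1 hcop j hj

lemma allD_sound {lo n : ℕ} (h : allD lo n = true) :
    ∀ D, lo ≤ D → D < lo + n → allA D (phiC D D - 1) (D / 2) = true := by
  induction n with
  | zero => intro D h1 h2; omega
  | succ n ih =>
    intro D h1 h2
    unfold allD at h
    rw [Bool.and_eq_true] at h
    rcases Nat.lt_or_ge D (lo + n) with h3 | h3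
    · exact ih h.1 D h1 h3
    · obtain rfl : D = lo + n := by omega
      exact h.2

theorem no_above_of_allD {lo n D : ℕ} (hall : allD lo n = true) (hlo : lo ≤ D)
    (hhi : D < lo + n) (hD205 : D ≤ 205) {I : Finset ℕ} (h : Sys D I) (h3 : 3 ≤ I.card)
    (h1 : 1 ∈ I) {a j : ℕ} (hd : Dev I a j) {b : ℕ} (hb : b ∈ I) (hab : a < b) : False := by
  have hA := allD_sound hall D hlo hhi
  have hD := h.six_le h3
  have hlt := h.add_lt h3 hd.mem hb (by omega)
  have hj : j ≤ 6 := by
    by_contra hcon
    have h2 : 2 ^ 7 ≤ 2 ^ j := Nat.pow_le_pow_right (by norm_num) (by omega)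
    have := hd.lt
    omega
  have hc := allA_sound hA a hd.three_le (by omega) (h.cop a hd.mem) j hj
  exact jOk_sound h hD h1 hd hb hab hc

end Pool.Agent.Helper27.FK
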