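import Pool.Agent.Helper47.FK.Chk2

/-!
Finite check, range of `D` from 6 to 89 (kernel evaluation).
-/

namespace Pool.Agent.Helper27.FK

theorem chkR1 : allD 6 84 = true := by decide +kernel

end Pool.Agent.Helper27.FK
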