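import Mathlib
import Pool.Agent.Helper7.FR.Iff

/-!
The Fraenkel tuple `2^i / (2^n - 1)`, `i < n`, is admissible.
-/

namespace Pool.Agent.Helper47.FK

open Pool.Agent.Helper7.FR

/-- Membership in the set of the rate `2^i / (2^n - 1)` with phase `(2^(n-1) - 1)/(2^n - 1)`,
where `p = 2^i`, `q = 2^(n-1-i)`. -/
lemma mem_iff {p q : ℤ} (hp : 0 < p) (hq : 0 < q) (hpq : 1 < 2 * (p * q)) (m : ℤ) :
    m ∈ Sset ((p : ℝ) / (2 * (p * q) - 1)) (((p : ℝ) * q - 1) / (2 * (p * q) - 1)) ↔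
      ∃ w : ℤ, 0 ≤ w ∧ w < p ∧ (2 * (p * q) - 1) ∣ m - q * (2 * w + 1) := by
  have hpr : (0 : ℝ) < p := by exact_mod_cast hp
  have hqr : (0 : ℝ) < q := by exact_mod_cast hq
  have hD : (0 : ℝ) < 2 * (p * q) - 1 := by
    have : (1 : ℝ) < 2 * (p * q) := by exact_mod_cast hpq
    linarith
  have key : m ∈ Sset ((p : ℝ) / (2 * (p * q) - 1)) (((p : ℝ) * q - 1) / (2 * (p * q) - 1)) ↔
      ∃ j : ℤ, p * (m - 1) < j * (2 * (p * q) - 1) - (p * q - 1) ∧
        j * (2 * (p * q) - 1) - (p * q - 1) ≤ p * m := by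
    unfold Sset
    rw [Set.mem_range]
    apply exists_congr
    intro j
    rw [Int.ceil_eq_iff]
    have e : (j : ℝ) / ((p : ℝ) / (2 * (p * q) - 1)) -
        (((p : ℝ) * q - 1) / (2 * (p * q) - 1)) / ((p : ℝ) / (2 * (p * q) - 1)) =
        ((j * (2 * (p * q) - 1) - (p * q - 1) : ℤ) : ℝ) / p := by
      push_cast
      generalize hG : (2 * ((p : ℝ) * q) - 1) = G at *
      field_simp
    rw [e, lt_div_iff₀ hpr, div_le_iff₀ hpr]
    constructor
    · rintro ⟨h1, h2⟩
      constructor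
      · have : (((p * (m - 1) : ℤ)) : ℝ) < ((j * (2 * (p * q) - 1) - (p * q - 1) : ℤ) : ℝ) := by
          push_cast at h1 ⊢
          linarith
        exact_mod_cast this
      · have : ((j * (2 * (p * q) - 1) - (p * q - 1) : ℤ) : ℝ) ≤ (((p * m : ℤ)) : ℝ) := by
          push_cast at h2 ⊢
          linarith
        exact_mod_cast this
    · rintro ⟨h1, h2⟩
      constructor
      · have : (((p * (m - 1) : ℤ)) : ℝ) < ((j * (2 * (p * q) - 1) - (p * q - 1) : ℤ) : ℝ) := by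
          exact_mod_cast h1
        push_cast at this ⊢
        linarith
      · have : ((j * (2 * (p * q) - 1) - (p * q - 1) : ℤ) : ℝ) ≤ (((p * m : ℤ)) : ℝ) := by
          exact_mod_cast h2
        push_cast at this ⊢
        linarith
  rw [key]
  constructor
  · rintro ⟨j, h1, h2⟩
    refine ⟨p * m + (p * q - 1) - j * (2 * (p * q) - 1), by linarith, by linarith, ?_⟩
    exact ⟨-m - q + 2 * q * j, by ring⟩
  · rintro ⟨w, h0, h1, e, he⟩
    refine ⟨w + 1 + p * e, ?_, ?_⟩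
    · have h3 : m = (2 * (p * q) - 1) * e + q * (2 * w + 1) := by linarith
      rw [h3]
      nlinarith
    · have h3 : m = (2 * (p * q) - 1) * e + q * (2 * w + 1) := by linarith
      rw [h3]
      nlinarith

lemma two_pow_odd_inj {a b : ℕ} {u v : ℤ} (h : (2 : ℤ) ^ a * (2 * u + 1) = 2 ^ b * (2 * v + 1)) :
    a = b := by
  rcases lt_trichotomy a b with hlt | heq | hlt
  · exfalso
    obtain ⟨k, rfl⟩ : ∃ k, b = a + 1 + k := ⟨b - a - 1, by omega⟩
    rw [pow_add, pow_succ, mul_assoc, mul_assoc] at h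
    have h2 : (2 * u + 1) = 2 * (2 ^ k * (2 * v + 1)) :=
      mul_left_cancel₀ (by positivity) h
    omega
  · exact heq
  · exfalso
    obtain ⟨k, rfl⟩ : ∃ k, a = b + 1 + k := ⟨a - b - 1, by omega⟩
    rw [pow_add, pow_succ, mul_assoc, mul_assoc] at h
    have h2 : 2 * (2 ^ k * (2 * u + 1)) = (2 * v + 1) :=
      mul_left_cancel₀ (by positivity) h
    omega

/-- The Fraenkel tuple is admissible. -/
theorem admissible_fra {n : ℕ} (hn : 1 ≤ n) : Admissible (fra n) := by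
  have hpow : (2 : ℝ) ≤ 2 ^ n := by
    calc (2 : ℝ) = 2 ^ 1 := by norm_num
      _ ≤ 2 ^ n := pow_le_pow_right₀ (by norm_num) hn
  have hpow' : (1 : ℝ) ≤ 2 ^ (n - 1) := one_le_pow₀ (by norm_num)
  have h2n : (2 : ℝ) ^ n = 2 * 2 ^ (n - 1) := by
    rw [← pow_succ']; congr 1; omega
  have h2nz : (2 : ℤ) ^ n = 2 * 2 ^ (n - 1) := by
    rw [← pow_succ']; congr 1; omega
  refine ⟨fun _ => ((2 : ℝ) ^ (n - 1) - 1) / (2 ^ n - 1), ?_, ?_⟩
  · intro i
    constructor
    · apply div_nonneg <;> linarith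
    · rw [div_lt_one (by linarith)]
      linarith
  · -- membership
    have hmem : ∀ (i : Fin n) (m : ℤ),
        m ∈ Sset (fra n i) (((2 : ℝ) ^ (n - 1) - 1) / (2 ^ n - 1)) ↔
        ∃ w : ℤ, 0 ≤ w ∧ w < 2 ^ (i : ℕ) ∧
          ((2 : ℤ) ^ n - 1) ∣ m - 2 ^ (n - 1 - i) * (2 * w + 1) := by
      intro i m
      have hi := i.isLt
      have e1 : (2 : ℤ) ^ (i : ℕ) * 2 ^ (n - 1 - i) = 2 ^ (n - 1) := by
        rw [← pow_add]; congr 1; omega
      have e2 : (2 : ℝ) ^ (i : ℕ) * 2 ^ (n - 1 - i) = 2 ^ (n - 1) := by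
        rw [← pow_add]; congr 1; omega
      have h1 := mem_iff (p := 2 ^ (i : ℕ)) (q := 2 ^ (n - 1 - i)) (by positivity) (by positivity)
        (by
          rw [e1]
          have : (1 : ℤ) ≤ 2 ^ (n - 1) := one_le_pow₀ (by norm_num)
          linarith) m
      push_cast at h1
      rw [e1, e2, ← h2nz, ← h2n] at h1
      exact h1
    intro m
    -- the representative in `[1, D]`
    have hDpos : (0 : ℤ) < 2 ^ n - 1 := by
      rw [h2nz]
      have : (1 : ℤ) ≤ 2 ^ (n - 1) := one_le_pow₀ (by norm_num)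
      linarith
    obtain ⟨x, hx1, hxD, hxm⟩ : ∃ x : ℕ, 1 ≤ x ∧ (x : ℤ) ≤ 2 ^ n - 1 ∧
        ((2 : ℤ) ^ n - 1) ∣ m - x := by
      have h1 := Int.emod_nonneg (m - 1) hDpos.ne'
      have h2 := Int.emod_lt_of_pos (m - 1) hDpos
      refine ⟨((m - 1) % (2 ^ n - 1) + 1).toNat, ?_, ?_, ?_⟩
      · omega
      · rw [Int.toNat_of_nonneg (by omega)]
        omega
      · rw [Int.toNat_of_nonneg (by omega)]
        have h3 := Int.emod_add_mul_ediv (m - 1) (2 ^ n - 1)
        exact ⟨(m - 1) / (2 ^ n - 1), by linarith⟩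
    obtain ⟨k, o, ho, hxo⟩ := Nat.exists_eq_two_pow_mul_odd (show x ≠ 0 by omega)
    obtain ⟨u, hu⟩ := ho
    have hxZ : (x : ℤ) = 2 ^ k * (2 * u + 1) := by
      rw [hxo, hu]; push_cast; ring
    have hk : k < n := by
      by_contra hcon
      have h1 : (2 : ℤ) ^ n ≤ 2 ^ k := pow_le_pow_right₀ (by norm_num) (by omega)
      have h2 : (2 : ℤ) ^ k * 1 ≤ 2 ^ k * (2 * u + 1) :=
        mul_le_mul_of_nonneg_left (by omega) (by positivity)
      linarith
    refine ⟨⟨n - 1 - k, by omega⟩, ?_, ?_⟩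
    · show m ∈ Sset (fra n ⟨n - 1 - k, by omega⟩) _
      rw [hmem]
      refine ⟨u, by positivity, ?_, ?_⟩
      · show (u : ℤ) < 2 ^ (n - 1 - k)
        have e : (2 : ℤ) ^ n = 2 ^ k * (2 * 2 ^ (n - 1 - k)) := by
          rw [← pow_succ', ← pow_add]; congr 1; omega
        have h1 : (2 : ℤ) ^ k * (2 * u + 1) < 2 ^ k * (2 * 2 ^ (n - 1 - k)) := by
          rw [← hxZ, ← e]; omega
        have h2 := lt_of_mul_lt_mul_left h1 (by positivity)
        linarith
      · show (2 ^ n - 1 : ℤ) ∣ m - 2 ^ (n - 1 - (n - 1 - k)) * (2 * u + 1)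
        have e : n - 1 - (n - 1 - k) = k := by omega
        rw [e, ← hxZ]
        exact hxm
    · intro i hi
      have hi' : m ∈ Sset (fra n i) (((2 : ℝ) ^ (n - 1) - 1) / (2 ^ n - 1)) := hi
      rw [hmem] at hi'
      obtain ⟨w, hw0, hw1, hw⟩ := hi'
      have hin := i.isLt
      set y : ℤ := 2 ^ (n - 1 - (i : ℕ)) * (2 * w + 1) with hy
      have hq : (0 : ℤ) < 2 ^ (n - 1 - (i : ℕ)) := by positivity
      have hy1 : 1 ≤ y := by
        rw [hy]
        nlinarith
      have hyD : y ≤ 2 ^ n - 1 := by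
        have e : (2 : ℤ) ^ n = 2 ^ (n - 1 - (i : ℕ)) * (2 * 2 ^ (i : ℕ)) := by
          rw [← pow_succ', ← pow_add]; congr 1; omega
        have h1 : 2 * w + 1 ≤ 2 * 2 ^ (i : ℕ) - 1 := by linarith
        have h2 : y ≤ 2 ^ (n - 1 - (i : ℕ)) * (2 * 2 ^ (i : ℕ) - 1) :=
          mul_le_mul_of_nonneg_left h1 hq.le
        rw [mul_sub, mul_one, ← e] at h2
        linarith
      have hxy : (x : ℤ) = y := by
        have h1 : ((2 : ℤ) ^ n - 1) ∣ x - y := by
          have := dvd_sub hw hxm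
          have e : m - y - (m - x) = x - y := by ring
          rwa [e] at this
        obtain ⟨c, hc⟩ := h1
        have hx1' : (1 : ℤ) ≤ x := by exact_mod_cast hx1
        have hc0 : c = 0 := by
          by_contra hne
          rcases lt_or_gt_of_ne hne with h2 | h2
          · have h3 : c ≤ -1 := by omega
            nlinarith
          · have h3 : 1 ≤ c := by omega
            nlinarith
        rw [hc0, mul_zero] at hc
        linarith
      rw [hxZ, hy] at hxy
      have hk' := two_pow_odd_inj hxy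
      apply Fin.ext
      show (i : ℕ) = n - 1 - k
      omega

end Pool.Agent.Helper47.FK
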